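import Pool.Agent.W658.KZ.Stm
import Pool.Agent.W808.KZ.Per

/-!
# KZR-FRB: the clusters of the sectors stay away from the exits of the zippers (helper956)
-/

set_option autoImplicit false

namespace Pool.Agent.W658.KZ
open H974 H906.Cyl
open Pool.Agent.H160R2.MU (Cel csq cpos prd shf BxS Bxs EP inSq PC Bad Cc)
open Pool.Agent.W801.OU
open Pool.Agent.W808.KZ
open Relation (EqvGen)

namespace TFRB

open Pool.Agent.W808.KZ.Per

theorem eqv_closed {α : Type*} {T : α → α → Prop} {Q : α → Prop}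
    (h : ∀ a b, T a b → (Q a ↔ Q b)) {a b : α} (hab : EqvGen T a b) : Q a ↔ Q b := by
  induction hab with
  | rel _ _ h1 => exact h _ _ h1
  | refl _ => exact Iff.rfl
  | symm _ _ _ ih => exact ih.symm
  | trans _ _ _ _ _ ih1 ih2 => exact ih1.trans ih2

theorem exit_eqv {α : Type*} {T : α → α → Prop} {a b : α} (h : EqvGen T a b) (R : α → Prop)
    (ha : R a) (hb : ¬ R b) : ∃ v w, EqvGen (fun x y => T x y ∧ R x ∧ R y) a v ∧ R v ∧ ¬ R w ∧
      (T v w ∨ T w v) := by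
  by_contra hcon
  push Not at hcon
  have key : ∀ x y, T x y → ((EqvGen (fun x y => T x y ∧ R x ∧ R y) a x ∧ R x) ↔
      (EqvGen (fun x y => T x y ∧ R x ∧ R y) a y ∧ R y)) := by
    intro x y hxy
    constructor
    · rintro ⟨h1, h2⟩
      by_cases h3 : R y
      · exact ⟨h1.trans _ _ _ (EqvGen.rel _ _ ⟨hxy, h2, h3⟩), h3⟩
      · exact absurd hxy (hcon x y h1 h2 h3).1
    · rintro ⟨h1, h2⟩
      by_cases h3 : R x
      · exact ⟨h1.trans _ _ _ ((EqvGen.rel _ _ ⟨hxy, h3, h2⟩).symm _ _), h3⟩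
      · exact absurd hxy (hcon y x h1 h2 h3).2
  exact hb ((eqv_closed key h).1 ⟨EqvGen.refl _, ha⟩).2

theorem eqv_mono {α : Type*} {T T' : α → α → Prop} (h : ∀ a b, T a b → T' a b) {a b : α}
    (hab : EqvGen T a b) : EqvGen T' a b := by
  induction hab with
  | rel _ _ h1 => exact EqvGen.rel _ _ (h _ _ h1)
  | refl _ => exact EqvGen.refl _
  | symm _ _ _ ih => exact ih.symm
  | trans _ _ _ _ _ ih1 ih2 => exact ih1.trans _ _ _ ih2

theorem nrm_fst {Z : Set ℤ} {d j t : ℤ} : j - 1 ≤ (nrm Z d j t).1 ∧ (nrm Z d j t).1 ≤ j ∧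
    (nrm Z d j t).2 = t := by
  unfold nrm
  split_ifs
  · dsimp only; omega
  · dsimp only; omega

theorem dg_near {Z : Set ℤ} {c : ℤ} {e : Edg} {x y : ℤ × ℤ} (h : Dg Z c e x y) :
    ((x.2 = dco e ∨ x.2 = dco e + 1) ∧ (y.2 = dco e ∨ y.2 = dco e + 1)) ∧
    (e.1 + e.2.1 - 1 ≤ x.1 ∧ x.1 ≤ e.1 + e.2.1 + 1) ∧
    (e.1 + e.2.1 - 1 ≤ y.1 ∧ y.1 ≤ e.1 + e.2.1 + 1) := by
  cases h with
  | rise h =>
    have h1 := nrm_fst (Z := Z) (d := dco e) (j := e.1 + e.2.1) (t := dco e)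
    have h2 := nrm_fst (Z := Z) (d := dco e) (j := e.1 + e.2.1 + 1) (t := dco e + 1)
    omega
  | fall h =>
    have h1 := nrm_fst (Z := Z) (d := dco e) (j := e.1 + e.2.1) (t := dco e + 1)
    have h2 := nrm_fst (Z := Z) (d := dco e) (j := e.1 + e.2.1 + 1) (t := dco e)
    omega

/-- a link of the configuration of step B with an end which is not a class `1` point of the closed
region is a link of `F` -/
theorem link_F (h3 : S_z3) {N r : ℕ} {C : Cel} {n M : ℕ} (hN : 16 ≤ N) (hC : AdmZ N C)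
    (hn : n = prd N N * r) {F : Finset Edg} (hF : F ⊆ CE n M) {z w : ℤ × ℤ}
    (hz : ¬ XE N r C n z) (h : LZ (Zn n) Set.univ (per n (FB N r C n M F)) z w) :
    ∃ e : Edg, (((z.2 = dco e ∨ z.2 = dco e + 1) ∧ (w.2 = dco e ∨ w.2 = dco e + 1)) ∧
      (e.1 + e.2.1 - 1 ≤ z.1 ∧ z.1 ≤ e.1 + e.2.1 + 1) ∧
      (e.1 + e.2.1 - 1 ≤ w.1 ∧ w.1 ≤ e.1 + e.2.1 + 1)) ∧
      (e ∈ EB N r ∨ e ∈ ET N r C) ∧
      ∀ B : Set Edg, e ∈ B → LZ (Zn n) B (per n F) z w := by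
  classical
  obtain ⟨e, -, hze, h | h⟩ := h
  · obtain ⟨h1, h2⟩ := h
    have h4 : red n e ∈ FB N r C n M F := h1
    unfold FB at h4
    rw [Finset.mem_filter] at h4
    have h5 : e ∈ EB N r ∨ e ∈ ET N r C :=
      h4.2.1.imp (EB_red h3 hN hC hn e).1 (ET_red h3 hN hC hn e).1
    exact ⟨e, dg_near h2, h5, fun B hB => ⟨e, hB, hze, Or.inl ⟨h4.2.2, h2⟩⟩⟩
  · obtain ⟨h1, h2⟩ := h
    have h5 : e ∈ EB N r ∨ e ∈ ET N r C := by
      by_contra hcon
      push Not at hcon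
      exact hz ⟨e, hcon.1, hcon.2, hze, w, Or.inl h2⟩
    have h6 : e ∉ per n F := by
      intro h7
      apply h1
      show red n e ∈ FB N r C n M F
      unfold FB
      rw [Finset.mem_filter]
      exact ⟨hF h7, h5.imp (EB_red h3 hN hC hn e).2 (ET_red h3 hN hC hn e).2, h7⟩
    exact ⟨e, dg_near h2, h5, fun B hB => ⟨e, hB, hze, Or.inr ⟨h6, h2⟩⟩⟩

end TFRB

open TFRB Pool.Agent.W808.KZ.Per in
theorem t_FRB : S_z3 → S_FRB := by
  intro h3 c N r ρ C hc hN hC hρ hr n M hn hM F hF hBZ hX s s' x hx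
  by_contra hcon
  push Not at hcon
  obtain ⟨hx1, hx2⟩ := hcon
  have hr0 : 0 < r := by omega
  have hN' : (16 : ℤ) ≤ N := by exact_mod_cast hN
  have hr' : (64 : ℤ) * ρ ≤ r := by exact_mod_cast hr
  have hρ' : (16 : ℤ) ≤ ρ := by exact_mod_cast hρ
  have hn0 : 0 < n := by
    rw [hn]
    refine Nat.mul_pos ?_ hr0
    unfold prd
    omega
  have h16 : (16 : ℤ) * r ≤ N * r := mul_le_mul_of_nonneg_right hN' (by omega)
  have eNr : (2 : ℤ) * N * r = 2 * (N * r) := by ring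
  set G := per n (FB N r C n M F) with hG
  -- translate
  set σ := s - s' with hσ
  set x' := tp n (-s') x with hx'
  have hx0 : RC n G (scz n σ c) x' := by
    have h := RC_tp hn0 (FB N r C n M F) (-s') hx
    rw [tp_scz] at h
    have e : s + -s' = σ := by rw [hσ]; ring
    rw [e] at h
    exact h
  have hXσ : ∀ y : ℤ × ℤ, RC n G (scz n σ c) y → ¬ XE N r C n y := by
    intro y hy hyX
    have h := RC_tp hn0 (FB N r C n M F) (-σ) hy
    rw [tp_scz, add_neg_cancel] at h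
    exact hX _ (XE_tp h3 hN hC hn (-σ) hyX) h
  have hx'1 : x'.1 = x.1 - 2 * n * s' := by
    rw [hx']
    show x.1 + 2 * n * (-s') = _
    ring
  have hx'2 : x'.2 = x.2 := rfl
  rw [← hx'1] at hx1
  rw [← hx'2] at hx2
  rw [eNr] at hx2
  -- the first exit
  obtain ⟨v, w, hv, hRv, hRw, hvw⟩ := exit_eqv (T := LZ (Zn n) Set.univ G) (a := x')
    (b := scz n σ c) (EqvGen.symm _ _ hx0)
    (fun y => (|y.1| < r / 2 ∧ |y.2 + 2 * (N * r)| < r / 2) ∧ RC n G (scz n σ c) y)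
    ⟨⟨by omega, by omega⟩, hx0⟩ (by
      rintro ⟨⟨-, h⟩, -⟩
      have e : (scz n σ c).2 = 0 := rfl
      rw [e, zero_add, abs_of_nonneg (by omega)] at h
      omega)
  have hwK : RC n G (scz n σ c) w := by
    rcases hvw with h | h
    · exact EqvGen.trans _ _ _ hRv.2 (EqvGen.rel _ _ h)
    · exact EqvGen.trans _ _ _ hRv.2 (EqvGen.symm _ _ (EqvGen.rel _ _ h))
  have hw : (r : ℤ) / 2 ≤ |w.1| ∨ (r : ℤ) / 2 ≤ |w.2 + 2 * (N * r)| := by
    by_contra hcon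
    push Not at hcon
    exact hRw ⟨hcon, hwK⟩
  set B : Set Edg := {e | |e.1 + e.2.1| ≤ r ∧ |dco e + 2 * N * r| ≤ r} with hB
  have hlink : ∀ a b : ℤ × ℤ, RC n G (scz n σ c) a →
      (|a.1| < r / 2 ∧ |a.2 + 2 * (N * r)| < r / 2 ∨
        |b.1| < r / 2 ∧ |b.2 + 2 * (N * r)| < r / 2) →
      LZ (Zn n) Set.univ G a b → LZ (Zn n) B (per n F) a b := by
    intro a b ha hab h
    obtain ⟨e, ⟨⟨d1, d2⟩, ⟨d3, d4⟩, d5, d6⟩, -, h1⟩ := link_F h3 hN hC hn hF (hXσ a ha) h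
    apply h1
    have e1 : |e.1 + e.2.1| ≤ (r : ℤ) := by
      rw [abs_le]
      rcases hab with ⟨h, -⟩ | ⟨h, -⟩
      · have := abs_lt.1 h
        omega
      · have := abs_lt.1 h
        omega
    have e2 : |dco e + 2 * N * r| ≤ (r : ℤ) := by
      rw [eNr, abs_le]
      rcases hab with ⟨-, h⟩ | ⟨-, h⟩
      · have := abs_lt.1 h
        omega
      · have := abs_lt.1 h
        omega
    exact ⟨e1, e2⟩
  have hv' : RZ (Zn n) B (per n F) x' v := by
    refine eqv_mono ?_ hv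
    rintro a b ⟨h1, h2, h4⟩
    exact hlink a b h2.2 (Or.inl h2.1) h1
  have hw' : RZ (Zn n) B (per n F) x' w := by
    refine EqvGen.trans _ _ _ hv' ?_
    rcases hvw with h | h
    · exact EqvGen.rel _ _ (hlink v w hRv.2 (Or.inl hRv.1) h)
    · exact EqvGen.symm _ _ (EqvGen.rel _ _ (hlink w v hwK (Or.inr hRv.1) h))
  refine hBZ ⟨x', w, hx1, ?_, ?_, hw'⟩
  · rw [sub_neg_eq_add, eNr]
    exact hx2
  · rw [sub_neg_eq_add, eNr]
    exact hw

end Pool.Agent.W658.KZ
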