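import Pool.Agent.W956.KZR.MB1a

/-!
# KZR-MB1, step B, deterministic part (helper956)
-/

set_option autoImplicit false

namespace Pool.Agent.W658.KZ
open H974 H906.Cyl
open H12S (Dir hbE segD rimE H4 Crs Nr sqE)
open Pool.Agent.H160R2.ML (nm)
open Pool.Agent.H160R2.MU (Cel csq cpos prd shf BxS Bxs EP inSq PC Bad Cc)
open Pool.Agent.W808.HU (PTr)
open Pool.Agent.W801.OU
open Pool.Agent.W808.KZ
open Relation (EqvGen)

namespace MB

open Pool.Agent.W808.KZ.TSEPB (Aw Sz aw_Sz dg_std dg0 dg1 vp_even vp_inj link_vp dg_near mem_Sz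
  src_dco Par Far eqv_isol mem_Zn)
open Pool.Agent.W808.KZ.TEXA (mem_mrg cor01 n_pos)
open Pool.Agent.W239.KZR (mem_FB mem_ExB1 KB1_tp KL_tv Yb_te1 Yb_te src_te tgt_te tv touch_B1)

theorem dg_det {Z : Set ℤ} {e : Edg} {a b a' b' : ℤ × ℤ} (h : Dg Z 1 e a b)
    (h' : Dg Z 1 e a' b') : a = a' ∧ b = b' := by
  cases h with
  | rise p1 =>
    cases h' with
    | rise p2 => exact ⟨rfl, rfl⟩
    | fall p2 => omega
  | fall p1 =>
    cases h' with
    | rise p2 => omega
    | fall p2 => exact ⟨rfl, rfl⟩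

theorem cor1_two {n : ℕ} {e : Edg} {a b z : ℤ × ℤ} (h : Dg (Zn n) 1 e a b ∨ Dg (Zn n) 1 e b a)
    (hz : Cor (Zn n) 1 e z) : z = a ∨ z = b := by
  obtain ⟨-, w, hw⟩ := hz
  rcases h with h | h <;> rcases hw with hw | hw
  · exact Or.inl (dg_det hw h).1
  · exact Or.inr (dg_det hw h).2
  · exact Or.inr (dg_det hw h).1
  · exact Or.inl (dg_det hw h).2

theorem ex1 {n : ℕ} {e : Edg} (he : e ∉ zp (Zn n)) : ∃ y, Cor (Zn n) 1 e y := by
  rcases Int.emod_two_eq_zero_or_one (e.1 + e.2.1 + dco e) with h | h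
  · exact ⟨_, he, _, Or.inl (Dg.fall (by omega))⟩
  · exact ⟨_, he, _, Or.inl (Dg.rise h)⟩

theorem at_Sz {n : ℕ} {e : Edg} {v : Vtx} (hv : Aw n (vp v)) (he : src e = v ∨ tgt e = v) :
    e ∈ Sz n := by
  have h1 := ends_near e
  rw [mem_Sz]
  rcases hv with h | h
  · left
    rcases he with rfl | rfl
    · omega
    · omega
  · right
    intro s
    have h2 := h s
    rcases he with rfl | rfl
    · omega
    · omega

/-- the class `1` corners of the edges at a vertex -/
theorem face_cases {n : ℕ} {e : Edg} {v : Vtx} (hS : e ∈ Sz n) (he : src e = v ∨ tgt e = v)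
    {y : ℤ × ℤ} (hy : Cor (Zn n) 1 e y) : y = (v.1 + v.2 + 1, v.1 - v.2) ∨
      y = (v.1 + v.2, v.1 - v.2 + 1) ∨ y = (v.1 + v.2 - 1, v.1 - v.2) ∨
      y = (v.1 + v.2, v.1 - v.2 - 1) := by
  obtain ⟨p, q, b⟩ := e
  obtain ⟨-, w, hw⟩ := hy
  rcases hw with hw | hw
  · rw [dg_std hS] at hw
    cases b
    · have hd : dco ((p, q, false) : Edg) = p - q - 1 := by simp [dco]
      rw [hd] at hw
      simp only at hw
      rcases hw with ⟨h, rfl, -⟩ | ⟨h, -, -⟩
      · rcases he with rfl | rfl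
        · right; right; right; rfl
        · right; right; left
          show _ = (p + (q + 1) - 1, p - (q + 1))
          exact Prod.ext (by simp only; ring) (by simp only; ring)
      · omega
    · have hd : dco ((p, q, true) : Edg) = p - q := by simp [dco]
      rw [hd] at hw
      simp only at hw
      rcases hw with ⟨h, -, -⟩ | ⟨h, rfl, -⟩
      · omega
      · rcases he with rfl | rfl
        · right; left; rfl
        · right; right; left
          show _ = (p + 1 + q - 1, p + 1 - q)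
          exact Prod.ext (by simp only; ring) (by simp only; ring)
  · rw [dg_std hS] at hw
    cases b
    · have hd : dco ((p, q, false) : Edg) = p - q - 1 := by simp [dco]
      rw [hd] at hw
      simp only at hw
      rcases hw with ⟨h, -, rfl⟩ | ⟨h, -, -⟩
      · rcases he with rfl | rfl
        · left
          show _ = (p + q + 1, p - q)
          exact Prod.ext (by simp only) (by simp only; ring)
        · right; left
          show _ = (p + (q + 1), p - (q + 1) + 1)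
          exact Prod.ext (by simp only; ring) (by simp only; ring)
      · omega
    · have hd : dco ((p, q, true) : Edg) = p - q := by simp [dco]
      rw [hd] at hw
      simp only at hw
      rcases hw with ⟨h, -, -⟩ | ⟨h, -, rfl⟩
      · omega
      · rcases he with rfl | rfl
        · left; rfl
        · right; right; right
          show _ = (p + 1 + q, p + 1 - q - 1)
          exact Prod.ext (by simp only; ring) (by simp only; ring)

section
variable {c N r ρ l : ℕ} {C : Cel} {n M : ℕ} {F G : Finset Edg}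

/-- an anchor: a vertex `u` of the cluster of the sector `c` in the closed region and a face `x` of the
closed region next to it -/
def Anc (c N r : ℕ) (C : Cel) (n M : ℕ) (F : Finset Edg) (u : Vtx) (x : ℤ × ℤ) : Prop :=
  RC n (per n (FB N r C n M F)) (scz n 0 c) (vp u) ∧ ∃ e : Edg, e ∉ EB N r ∧ e ∉ ET N r C ∧
    (src e = u ∨ tgt e = u) ∧ Cor (Zn n) 0 e (vp u) ∧ Cor (Zn n) 1 e x

theorem Anc.k {u : Vtx} {x : ℤ × ℤ} (ha : Anc c N r C n M F u x) :
    KB1 c N r C n M F (vp u) := ⟨0, ha.1⟩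

theorem Anc.xe {u : Vtx} {x : ℤ × ℤ} (ha : Anc c N r C n M F u x) : XE N r C n x := by
  obtain ⟨-, e, h1, h2, -, -, h3⟩ := ha
  exact ⟨e, h1, h2, h3⟩

theorem Anc.dvb {u : Vtx} {x : ℤ × ℤ} (ha : Anc c N r C n M F u x) : DvB N r C u := by
  obtain ⟨-, e, h1, h2, h3, -, -⟩ := ha
  exact ⟨e, h1, h2, h3⟩

/-- **planarity**: turning around a vertex -/
theorem Cx.turn (h : Cx c N r ρ l C n M F G) {u : Vtx} {x : ℤ × ℤ} (ha : Anc c N r C n M F u x)
    {v : Vtx} (hvA : Aw n (vp v)) (hvK : ¬ KB1 c N r C n M F (vp v)) (hvL : ¬ KL N r ρ C n F v)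
    {g : Edg} (hg : src g = v ∨ tgt g = v) {a b : ℤ × ℤ}
    (hab : Dg (Zn n) 1 g a b ∨ Dg (Zn n) 1 g b a)
    (hax : RC n (per n (FB N r C n M (mrg (ExB1 c N r ρ C n M F) F ∅))) a x) :
    RC n (per n (FB N r C n M (mrg (ExB1 c N r ρ C n M F) F ∅))) b x := by
  obtain ⟨n1, n2, n3, n4, n5, n6⟩ := h.num
  have hgS : g ∈ Sz n := at_Sz hvA hg
  set G1 := per n (FB N r C n M (mrg (ExB1 c N r ρ C n M F) F ∅)) with hG1
  by_cases hg1 : g ∈ G1
  · exfalso
    obtain ⟨hR, hgF, hgX⟩ := h.mem_G1.1 hg1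
    have hgY : g ∈ Yb N r ρ C n := by
      by_contra hY
      exact hvL ⟨v, g, hR, hY, hg, Relation.ReflTransGen.refl⟩
    have hst : Reach (per n F ∩ Yb N r ρ C n) (src g) (tgt g) :=
      Relation.ReflTransGen.single ⟨g, ⟨hgF, hgY⟩, Or.inl ⟨rfl, rfl⟩⟩
    have hgG : RC n (per n (FB N r C n M F)) (vp (src g)) (vp (tgt g)) :=
      SL.rc (e := g) ⟨Sz_zp hgS, Or.inl ⟨h.mem_G.2 ⟨hR, hgF⟩, Or.inl ((dg0 hgS).2 ⟨rfl, rfl⟩)⟩⟩
    have hxK : ¬ KB1 c N r C n M F x := fun hk => h.kxe hk ha.xe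
    obtain ⟨z, hz, hcz⟩ : ∃ z, KB1 c N r C n M F z ∧ (Cor (Zn n) 0 g z ∨ Cor (Zn n) 1 g z) := by
      rcases h.x2 hgX with h1 | h1 | h1
      · exact h1
      · exfalso
        rcases hg with rfl | rfl
        · exact hvL h1
        · exact hvL (kl_reach h1 hst)
      · exfalso
        rcases hg with rfl | rfl
        · exact hvL (kl_reach h1 (reach_symm hst))
        · exact hvL h1
    have hzb : z = b := by
      rcases hcz with hcz | hcz
      · exfalso
        rcases (cor0 hgS).1 hcz with rfl | rfl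
        · rcases hg with rfl | rfl
          · exact hvK hz
          · exact hvK (k_rc hz hgG)
        · rcases hg with rfl | rfl
          · exact hvK (k_rc hz (EqvGen.symm _ _ hgG))
          · exact hvK hz
      · rcases cor1_two hab hcz with rfl | rfl
        · exact absurd (h.k_rc1 hz hax) hxK
        · rfl
    subst hzb
    obtain ⟨s', hs'⟩ := hz
    have hbK : KB1 c N r C n M F z := ⟨s', hs'⟩
    -- the cluster of `v`
    have hvv : ∀ p : ℤ × ℤ, RC n G1 p (vp v) → ∃ w : Vtx, p = vp w ∧ Aw n (vp w) := by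
      intro p hp
      obtain ⟨w, h1, -, h3⟩ := h.loc (H := G1)
        (fun e he => ⟨(h.mem_G1.1 he).1, (h.mem_G1.1 he).2.1⟩) hvA hvL (EqvGen.symm _ _ hp)
      exact ⟨w, h1, h3⟩
    have nK : ∀ p, KB1 c N r C n M F p → ¬ RC n G1 p (vp v) ∧ ¬ RC n G1 p x :=
      fun p hp => ⟨fun h1 => hvK (h.k_rc1 hp h1), fun h1 => hxK (h.k_rc1 hp h1)⟩
    have nX : ∀ p, XE N r C n p → ¬ RC n G1 p (vp v) := by
      rintro p ⟨e, -, -, hp⟩ h1
      obtain ⟨w, rfl, hw⟩ := hvv p h1
      exact not_cor1 hw hp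
    obtain ⟨φ, hφ1, hφ2⟩ := h.coc n G1
      (fun p q => (RC n G1 p (vp v) ∧ RC n G1 q x) ∨ (RC n G1 p x ∧ RC n G1 q (vp v)))
      (by omega)
      (by
        rintro p q (⟨h1, h2⟩ | ⟨h1, h2⟩)
        · exact Or.inr ⟨h2, h1⟩
        · exact Or.inl ⟨h2, h1⟩)
      (by
        rintro p p' q hpp (⟨h1, h2⟩ | ⟨h1, h2⟩)
        · exact Or.inl ⟨EqvGen.trans _ _ _ (EqvGen.symm _ _ hpp) h1, h2⟩
        · exact Or.inr ⟨EqvGen.trans _ _ _ (EqvGen.symm _ _ hpp) h1, h2⟩)
      (by
        rintro s c' d hc' hd - (⟨h1, -⟩ | ⟨-, h1⟩)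
        · obtain ⟨w, h2, h3⟩ := hvv _ h1
          rw [← h2] at h3
          exact scz_not_aw hc' h3
        · obtain ⟨w, h2, h3⟩ := hvv _ h1
          rw [← h2] at h3
          exact scz_not_aw hd h3)
    have hsd : ∀ p q : ℤ × ℤ, (Side (Zn n) p q ∨ Side (Zn n) q p) →
        ¬ ((RC n G1 p (vp v) ∧ RC n G1 q x) ∨ (RC n G1 p x ∧ RC n G1 q (vp v))) →
        (φ p ↔ φ q) := by
      rintro p q (hs | hs) hn
      · by_contra hne
        exact hn ((hφ2 p q hs).2 hne)
      · by_contra hne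
        have := (hφ2 q p hs).2 (fun h => hne h.symm)
        rcases this with ⟨h1, h2⟩ | ⟨h1, h2⟩
        · exact hn (Or.inr ⟨h2, h1⟩)
        · exact hn (Or.inl ⟨h2, h1⟩)
    have hcv : Cor (Zn n) 0 g (vp v) := by
      rw [cor0 hgS]
      rcases hg with rfl | rfl
      · exact Or.inl rfl
      · exact Or.inr rfl
    have hca : Cor (Zn n) 1 g a := ⟨Sz_zp hgS, z, hab⟩
    have hcb : Cor (Zn n) 1 g z := ⟨Sz_zp hgS, a, hab.symm⟩
    -- `v` and `a`
    have f1 : ¬ (φ (vp v) ↔ φ a) := by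
      rcases side hcv hca with hs | hs
      · exact (hφ2 _ _ hs).1 (Or.inl ⟨EqvGen.refl _, hax⟩)
      · intro hiff
        exact (hφ2 _ _ hs).1 (Or.inr ⟨hax, EqvGen.refl _⟩) hiff.symm
    have f2 : φ a ↔ φ x := hφ1 _ _ hax
    have f3 : φ (vp v) ↔ φ z := by
      refine hsd _ _ (side hcv hcb) ?_
      rintro (⟨-, h1⟩ | ⟨h1, -⟩)
      · exact (nK z hbK).2 h1
      · exact nX x ha.xe (EqvGen.symm _ _ h1)
    have f4 : φ (scz n s' c) ↔ φ z := hφ1 _ _ ((h.exb s' z).2 hs')
    have hu1 : RC n (per n (FB N r C n M F)) (scz n s' c) (Per.tp n s' (vp u)) := by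
      have h1 := Per.RC_tp h.n0 (FB N r C n M F) s' ha.1
      rw [Per.tp_scz, zero_add] at h1
      exact h1
    have f5 : φ (scz n s' c) ↔ φ (Per.tp n s' (vp u)) := hφ1 _ _ ((h.exb s' _).2 hu1)
    have huK : KB1 c N r C n M F (Per.tp n s' (vp u)) := ⟨s', hu1⟩
    obtain ⟨-, e0, he1, he2, -, he3, he4⟩ := ha
    have haX : XE N r C n x := ⟨e0, he1, he2, he4⟩
    have f6 : φ (Per.tp n s' (vp u)) ↔ φ (Per.tp n s' x) := by
      refine hsd _ _ (side (Per.Cor_te1 s' he3) (Per.Cor_te1 s' he4)) ?_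
      rintro (⟨h1, -⟩ | ⟨h1, -⟩)
      · exact (nK _ huK).1 h1
      · exact (nK _ huK).2 h1
    obtain ⟨p1, p2⟩ := h.xch N r C h.hN (by omega) h.hC n h.hn φ
      (by
        intro p q hpq
        apply hφ1
        refine TFRB.eqv_mono ?_ hpq
        rintro p' q' ⟨e, he, hz, h1 | h1⟩
        · exact absurd h1.1 (fun h => h)
        · refine ⟨e, trivial, hz, Or.inr ⟨?_, h1.2⟩⟩
          intro heG
          rcases (h.mem_G1.1 heG).1 with h2 | h2
          · exact he.1 h2
          · exact he.2 h2)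
      (by
        intro p q hp hq hs
        by_contra hne
        rcases (hφ2 p q hs).2 hne with ⟨h1, -⟩ | ⟨-, h1⟩
        · exact nX p hp h1
        · exact nX q hq h1)
    have f7 : φ x ↔ φ (Per.tp n s' x) := by
      by_cases hx2 : x.2 < (3 * N + 1) * r
      · exact p1 x _ haX (Per.XE_tp h.z3 h.hN h.hC h.hn s' haX) hx2 hx2
      · exact p2 x s' haX (not_lt.1 hx2)
    exact f1 (f3.trans (f4.symm.trans (f5.trans (f6.trans (f7.symm.trans f2.symm)))))
  · have hba : RC n G1 b a :=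
      SL.rc (e := g) ⟨Sz_zp hgS, Or.inr ⟨hg1, hab.symm⟩⟩
    exact EqvGen.trans _ _ _ hba hax

/-- all the faces around a vertex -/
theorem Cx.faces (h : Cx c N r ρ l C n M F G) {u : Vtx} {x : ℤ × ℤ} (ha : Anc c N r C n M F u x)
    {v : Vtx} (hvA : Aw n (vp v)) (hvK : ¬ KB1 c N r C n M F (vp v)) (hvL : ¬ KL N r ρ C n F v)
    {f : Edg} (hf : src f = v ∨ tgt f = v) {y : ℤ × ℤ} (hy : Cor (Zn n) 1 f y)
    (hyx : RC n (per n (FB N r C n M (mrg (ExB1 c N r ρ C n M F) F ∅))) y x) (g : Edg)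
    (hg : src g = v ∨ tgt g = v) (w : ℤ × ℤ) (hw : Cor (Zn n) 1 g w) :
    RC n (per n (FB N r C n M (mrg (ExB1 c N r ρ C n M F) F ∅))) w x := by
  obtain ⟨p, q⟩ := v
  set T : ℤ × ℤ → Prop :=
    fun y => RC n (per n (FB N r C n M (mrg (ExB1 c N r ρ C n M F) F ∅))) y x with hT
  have tn : ∀ (g : Edg), (src g = (p, q) ∨ tgt g = (p, q)) → ∀ a b : ℤ × ℤ,
      Dg (Zn n) 1 g a b → (T a ↔ T b) := fun g hg a b hab =>
    ⟨h.turn ha hvA hvK hvL hg (Or.inl hab), h.turn ha hvA hvK hvL hg (Or.inr hab)⟩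
  have t0 : T (p + q, p - q + 1) ↔ T (p + q + 1, p - q) := by
    have hgv : src ((p, q, true) : Edg) = (p, q) ∨ tgt ((p, q, true) : Edg) = (p, q) := Or.inl rfl
    refine tn _ hgv _ _ ?_
    rw [dg_std (at_Sz hvA hgv)]
    have hd : dco ((p, q, true) : Edg) = p - q := by simp [dco]
    rw [hd]
    right
    refine ⟨by simp only; omega, rfl, rfl⟩
  have t1 : T (p + q - 1, p - q) ↔ T (p + q, p - q + 1) := by
    have hgv : src ((p, q - 1, false) : Edg) = (p, q) ∨ tgt ((p, q - 1, false) : Edg) = (p, q) := by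
      right
      show (p, q - 1 + 1) = (p, q)
      rw [sub_add_cancel]
    refine tn _ hgv _ _ ?_
    rw [dg_std (at_Sz hvA hgv)]
    have hd : dco ((p, q - 1, false) : Edg) = p - q := by simp [dco]; ring
    rw [hd]
    left
    refine ⟨by simp only; omega, ?_, ?_⟩
    · exact Prod.ext (by simp only; ring) (by simp only)
    · exact Prod.ext (by simp only; ring) (by simp only)
  have t2 : T (p + q - 1, p - q) ↔ T (p + q, p - q - 1) := by
    have hgv : src ((p - 1, q, true) : Edg) = (p, q) ∨ tgt ((p - 1, q, true) : Edg) = (p, q) := by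
      right
      show (p - 1 + 1, q) = (p, q)
      rw [sub_add_cancel]
    refine tn _ hgv _ _ ?_
    rw [dg_std (at_Sz hvA hgv)]
    have hd : dco ((p - 1, q, true) : Edg) = p - 1 - q := by simp [dco]
    rw [hd]
    right
    refine ⟨by simp only; omega, ?_, ?_⟩
    · exact Prod.ext (by simp only; ring) (by simp only; ring)
    · exact Prod.ext (by simp only; ring) (by simp only; ring)
  have t3 : T (p + q, p - q - 1) ↔ T (p + q + 1, p - q) := by
    have hgv : src ((p, q, false) : Edg) = (p, q) ∨ tgt ((p, q, false) : Edg) = (p, q) := Or.inl rfl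
    refine tn _ hgv _ _ ?_
    rw [dg_std (at_Sz hvA hgv)]
    have hd : dco ((p, q, false) : Edg) = p - q - 1 := by simp [dco]
    rw [hd]
    left
    refine ⟨by simp only; omega, rfl, ?_⟩
    exact Prod.ext (by simp only) (by simp only; ring)
  have hTy : T y := hyx
  have all : T (p + q + 1, p - q) ∧ T (p + q, p - q + 1) ∧ T (p + q - 1, p - q) ∧
      T (p + q, p - q - 1) := by
    rcases face_cases (at_Sz hvA hf) hf hy with h1 | h1 | h1 | h1
    · simp only at h1
      rw [h1] at hTy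
      tauto
    · simp only at h1
      rw [h1] at hTy
      tauto
    · simp only at h1
      rw [h1] at hTy
      tauto
    · simp only at h1
      rw [h1] at hTy
      tauto
  show T w
  rcases face_cases (at_Sz hvA hg) hg hw with h1 | h1 | h1 | h1
  · simp only at h1
    rw [h1]
    exact all.1
  · simp only at h1
    rw [h1]
    exact all.2.1
  · simp only at h1
    rw [h1]
    exact all.2.2.1
  · simp only at h1
    rw [h1]
    exact all.2.2.2

/-- exceptional points -/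
def Exc (c N r ρ : ℕ) (C : Cel) (n M : ℕ) (F G : Finset Edg) (z : ℤ × ℤ) : Prop :=
  ∃ (v u : Vtx) (x : ℤ × ℤ), z = vp v ∧ ¬ KL N r ρ C n F v ∧ ¬ KB1 c N r C n M F (vp v) ∧
    Anc c N r C n M F u x ∧ Reach (per n G) u v ∧
    ∀ g : Edg, (src g = v ∨ tgt g = v) → ∀ w : ℤ × ℤ, Cor (Zn n) 1 g w →
      RC n (per n (FB N r C n M (mrg (ExB1 c N r ρ C n M F) F ∅))) w x

theorem Cx.far_anc (h : Cx c N r ρ l C n M F G) {u : Vtx} {x : ℤ × ℤ}
    (ha : Anc c N r C n M F u x) {v : Vtx} (hv : Reach (per n G) u v) :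
    Nr (4 * l) u v ∧ Aw n (vp v) ∧ |(vp v).2| ≤ 3 * (N * r) + 3 * r + 2 + 8 * l := by
  obtain ⟨n1, n2, n3, n4, n5, n6⟩ := h.num
  obtain ⟨h1, h2⟩ := h.far_D ha.k ha.dvb
  have h3 : Nr (4 * l) u v := by
    refine h.hPT u v ?_ ?_
    · have : (vp u).2 = u.1 - u.2 := rfl
      rw [← this]
      omega
    · exact hv
  have e1 : (vp v).1 - (vp u).1 = (v.1 - u.1) + (v.2 - u.2) := by
    show v.1 + v.2 - (u.1 + u.2) = _
    ring
  have e2 : (vp v).2 - (vp u).2 = (v.1 - u.1) - (v.2 - u.2) := by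
    show v.1 - v.2 - (u.1 - u.2) = _
    ring
  obtain ⟨h4, h5⟩ := h3
  rw [abs_le] at h4 h5
  refine ⟨⟨abs_le.2 h4, abs_le.2 h5⟩, ?_, ?_⟩
  · refine Far.aw' (D := ρ - 1 - 8 * l) (Far.mono h1 ?_ ?_) (by omega)
    · have : |(vp v).1 - (vp u).1| ≤ 8 * l := by
        rw [e1, abs_le]
        omega
      omega
    · have : |(vp v).2 - (vp u).2| ≤ 8 * l := by
        rw [e2, abs_le]
        omega
      omega
  · rw [abs_le] at h2 ⊢
    omega

/-- the other end of an open square -/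
theorem Cx.fin (h : Cx c N r ρ l C n M F G) {u : Vtx} {x : ℤ × ℤ} (ha : Anc c N r C n M F u x)
    {v : Vtx} (hv : Reach (per n G) u v) {e : Edg} (he : src e = v ∨ tgt e = v)
    (hD : (e ∉ EB N r ∧ e ∉ ET N r C) ∨
      (e ∈ Yb N r ρ C n ∧ e ∉ per n (ExB1 c N r ρ C n M F)))
    {y : ℤ × ℤ} (hy : Cor (Zn n) 1 e y)
    (hyx : RC n (per n (FB N r C n M (mrg (ExB1 c N r ρ C n M F) F ∅))) y x) :
    RC n (per n (FB N r C n M F)) (scz n 0 c) (vp v) ∨ Exc c N r ρ C n M F G (vp v) := by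
  obtain ⟨hNr, hA, -⟩ := h.far_anc ha hv
  have hS := at_Sz hA he
  have hkl : KL N r ρ C n F v → RC n (per n (FB N r C n M F)) (scz n 0 c) (vp v) := by
    intro hK
    rcases hD with hD | hD
    · exact EqvGen.trans _ _ _ ha.1 (h.sep 0 u v ha.1 ha.dvb ⟨e, hD.1, hD.2, he⟩ hK hNr)
    · exfalso
      apply hD.2
      apply h.x3 hD.1
      rcases he with rfl | rfl
      · exact Or.inl hK
      · exact Or.inr hK
  by_cases hvK : KB1 c N r C n M F (vp v)
  · left
    rcases hD with hD | hD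
    · exact hkl (h.klk hvK ⟨e, hD.1, hD.2, he⟩)
    · exfalso
      apply hD.2
      refine h.x1 hD.1.1 hvK (Or.inl ?_)
      rw [cor0 hS]
      rcases he with rfl | rfl
      · exact Or.inl rfl
      · exact Or.inr rfl
  · by_cases hvL : KL N r ρ C n F v
    · exact Or.inl (hkl hvL)
    · exact Or.inr ⟨v, u, x, rfl, hvL, hvK, ha, hv, h.faces ha hA hvK hvL he hy hyx⟩

/-- squares which are linked to the clusters are in boxes and tube -/
theorem Cx.linkR (h : Cx c N r ρ l C n M F G) {e : Edg} {z w : ℤ × ℤ}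
    (hz : KB1 c N r C n M F z) (hl : SL n (per n (FB N r C n M F)) e z w) :
    e ∈ EB N r ∨ e ∈ ET N r C := by
  by_contra hcon
  push Not at hcon
  have hfG : e ∉ per n (FB N r C n M F) := by
    rw [h.mem_G]
    rintro ⟨h1 | h1, -⟩
    · exact hcon.1 h1
    · exact hcon.2 h1
  obtain ⟨hzf, ⟨a, -⟩ | ⟨-, b⟩⟩ := hl
  · exact hfG a
  · exact h.kxe hz ⟨e, hcon.1, hcon.2, hzf, w, b⟩

/-- the states agree next to the clusters -/
theorem Cx.agree (h : Cx c N r ρ l C n M F G) {e : Edg} {z : ℤ × ℤ}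
    (hz : KB1 c N r C n M F z) (hR : e ∈ EB N r ∨ e ∈ ET N r C)
    (hc : Cor (Zn n) 0 e z ∨ Cor (Zn n) 1 e z) :
    e ∈ per n (mrg (ExB1 c N r ρ C n M F) F G) ↔ e ∈ per n (FB N r C n M F) := by
  have hX := h.x1 hR hz hc
  rw [mem_Gp, h.mem_G]
  tauto

/-- closure under the links of the new configuration -/
theorem Cx.clo (h : Cx c N r ρ l C n M F G) {e : Edg} {z z' : ℤ × ℤ}
    (hl : SL n (per n (mrg (ExB1 c N r ρ C n M F) F G)) e z z')
    (hz : RC n (per n (FB N r C n M F)) (scz n 0 c) z ∨ Exc c N r ρ C n M F G z) :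
    RC n (per n (FB N r C n M F)) (scz n 0 c) z' ∨ Exc c N r ρ C n M F G z' := by
  obtain ⟨n1, n2, n3, n4, n5, n6⟩ := h.num
  rcases hz with hz | hz
  · have hK : KB1 c N r C n M F z := ⟨0, hz⟩
    by_cases hR : e ∈ EB N r ∨ e ∈ ET N r C
    · left
      have hag := h.agree hK hR hl.cor
      refine EqvGen.trans _ _ _ hz (SL.rc (e := e) ?_)
      obtain ⟨hz0, hl⟩ := hl
      refine ⟨hz0, ?_⟩
      rw [hag] at hl
      exact hl
    · have hD : e ∉ EB N r ∧ e ∉ ET N r C := by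
        constructor
        · exact fun h => hR (Or.inl h)
        · exact fun h => hR (Or.inr h)
      have hX : e ∉ per n (ExB1 c N r ρ C n M F) := fun h' => hR (h.x4 h')
      have hl' := hl
      obtain ⟨hz0, ⟨he, hd⟩ | ⟨he, hd⟩⟩ := hl'
      · have hc0 : Cor (Zn n) 0 e z := ⟨hz0, z', hd⟩
        have hcn := cor_near hc0
        obtain ⟨f, hf, hcf⟩ := h.near hK hD.1 hD.2 (by rw [abs_le]; omega) (by rw [abs_le]; omega)
        have hA : Aw n z := Far.aw' (h.far_cor hf hcf) (by omega)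
        obtain ⟨hS, hu⟩ := cor0_aw hA hc0
        obtain ⟨u, rfl⟩ : ∃ u : Vtx, z = vp u := hu.elim (fun h => ⟨_, h⟩) (fun h => ⟨_, h⟩)
        obtain ⟨-, -, w, rfl, hw⟩ := hl.vert hA
        have heG : e ∈ per n G := by
          rcases mem_Gp.1 he with h1 | h1
          · exact absurd h1.2 hX
          · exact h1.1
        obtain ⟨y, hy⟩ := ex1 hz0
        have ha : Anc c N r C n M F u y :=
          ⟨hz, e, hD.1, hD.2, hw.imp (fun h => h.1) (fun h => h.2), hc0, hy⟩
        exact h.fin ha (Relation.ReflTransGen.single ⟨e, heG, hw⟩)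
          (hw.symm.imp (fun h => h.1) (fun h => h.2)) (Or.inl hD) hy (EqvGen.refl _)
      · exact absurd ⟨e, hD.1, hD.2, hz0, z', hd⟩ (h.kxe hK)
  · obtain ⟨v, u, x, rfl, hvL, hvK, ha, huv, hAF⟩ := hz
    obtain ⟨hNr, hA, -⟩ := h.far_anc ha huv
    obtain ⟨hS, he, w, rfl, hw⟩ := hl.vert hA
    have hev : src e = v ∨ tgt e = v := hw.imp (fun h => h.1) (fun h => h.2)
    have hew : src e = w ∨ tgt e = w := hw.symm.imp (fun h => h.1) (fun h => h.2)
    have hxK : ¬ KB1 c N r C n M F x := fun hk => h.kxe hk ha.xe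
    obtain ⟨y, hy⟩ := ex1 hl.1
    have key : (e ∉ EB N r ∧ e ∉ ET N r C) ∨
        (e ∈ Yb N r ρ C n ∧ e ∉ per n (ExB1 c N r ρ C n M F)) := by
      by_cases hR : e ∈ EB N r ∨ e ∈ ET N r C
      · right
        have heY : e ∈ Yb N r ρ C n := by
          by_contra hY
          exact hvL ⟨v, e, hR, hY, hev, Relation.ReflTransGen.refl⟩
        refine ⟨heY, fun hX => ?_⟩
        have heF : e ∈ per n F := by
          rcases mem_Gp.1 he with h1 | h1
          · exact h1.1
          · exact absurd hX h1.2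
        have hst : Reach (per n F ∩ Yb N r ρ C n) (src e) (tgt e) :=
          Relation.ReflTransGen.single ⟨e, ⟨heF, heY⟩, Or.inl ⟨rfl, rfl⟩⟩
        have hgG : RC n (per n (FB N r C n M F)) (vp (src e)) (vp (tgt e)) :=
          SL.rc (e := e) ⟨Sz_zp hS, Or.inl ⟨h.mem_G.2 ⟨hR, heF⟩, Or.inl ((dg0 hS).2 ⟨rfl, rfl⟩)⟩⟩
        rcases h.x2 hX with ⟨z, hz, hcz | hcz⟩ | h1 | h1
        · rcases (cor0 hS).1 hcz with rfl | rfl
          · rcases hev with rfl | rfl
            · exact hvK hz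
            · exact hvK (k_rc hz hgG)
          · rcases hev with rfl | rfl
            · exact hvK (k_rc hz (EqvGen.symm _ _ hgG))
            · exact hvK hz
        · exact hxK (h.k_rc1 hz (hAF e hev z hcz))
        · rcases hev with rfl | rfl
          · exact hvL h1
          · exact hvL (kl_reach h1 hst)
        · rcases hev with rfl | rfl
          · exact hvL (kl_reach h1 (reach_symm hst))
          · exact hvL h1
      · exact Or.inl ⟨fun h => hR (Or.inl h), fun h => hR (Or.inr h)⟩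
    have heG : e ∈ per n G := by
      rcases mem_Gp.1 he with h1 | h1
      · exfalso
        rcases key with hk | hk
        · rcases h.x4 h1.2 with h2 | h2
          · exact hk.1 h2
          · exact hk.2 h2
        · exact hk.2 h1.2
      · exact h1.1
    exact h.fin ha (huv.tail ⟨e, heG, hw⟩) hew key hy (hAF e hev y hy)

end

end MB

open MB Pool.Agent.W239.KZR in
theorem t_MB1 : S_TRIc → S_COC → S_NA → S_XCH → S_z1 → S_z2 → S_z3 → S_EX → S_EXB1 → S_STR →
    S_FRB → S_SEPB1 → S_MB1 := by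
  intro _ hCOC _ hXCH _ _ hz3 _ hEXB hSTR hFRB hSEP c N r ρ l C hc hN hC hl h1 h2 n M hn hM F G
    hF hG hBad hBZ hPT ⟨hG3, hXE⟩
  have h : Cx c N r ρ l C n M F G :=
    { hc := hc, hN := hN, hC := hC, hl := hl, h1 := h1, h2 := h2, hn := hn, hM := hM, hF := hF,
      hXE := hXE, hPT := hPT, z3 := hz3, coc := hCOC, xch := hXCH
      exb := fun s x => (hEXB c N r ρ C hN (by omega) (by omega) h2 hC n M hn hM F ∅ hF
        (Finset.empty_subset _)).2.2 s x
      str := fun e he s => hSTR N r ρ C hN (by omega) h2 hC n hn e he s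
      frb := fun s s' x hx => hFRB c N r ρ C hc hN hC (by omega) h2 n M hn hM F hF hBZ hXE s s' x hx
      sep := fun s u v hu hDu hDv hK hNr => hSEP c N r ρ l C hc hN hC hl h1 h2 n M hn hM F hF
        hBad hBZ hXE s u v hu hDu hDv hK hNr }
  obtain ⟨n1, n2, n3, n4, n5, n6⟩ := h.num
  have inv : ∀ x, RC n (per n (mrg (ExB1 c N r ρ C n M F) F G)) (scz n 0 c) x →
      RC n (per n (FB N r C n M F)) (scz n 0 c) x ∨ Exc c N r ρ C n M F G x :=
    fun x hx => rc_inv (P := fun z => RC n (per n (FB N r C n M F)) (scz n 0 c) z ∨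
      Exc c N r ρ C n M F G z) (fun _ _ _ hl hz => h.clo hl hz) hx (Or.inl (EqvGen.refl _))
  refine ⟨c, hc, ?_, ?_, ?_⟩
  · obtain ⟨s, hs, d, hd, hsd⟩ := hG3.2 c hc
    refine ⟨s, hs, d, hd, ?_⟩
    have := rc_inv (P := fun z => RC n (per n (mrg (ExB1 c N r ρ C n M F) F G)) (scz n 0 c) z ∧
      RC n (per n (FB N r C n M F)) (scz n 0 c) z) (x := scz n 0 c) (y := scz n s d)
      (H := per n (FB N r C n M F)) ?_ hsd ⟨EqvGen.refl _, EqvGen.refl _⟩
    · exact this.1
    · rintro e x y hl ⟨hx1, hx2⟩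
      have hK : KB1 c N r C n M F x := ⟨0, hx2⟩
      have hR := h.linkR hK hl
      have hag := h.agree hK hR hl.cor
      refine ⟨EqvGen.trans _ _ _ hx1 (SL.rc (e := e) ?_), EqvGen.trans _ _ _ hx2 hl.rc⟩
      obtain ⟨hz0, hl⟩ := hl
      refine ⟨hz0, ?_⟩
      rw [← hag] at hl
      exact hl
  · intro d hd hdc hcon
    rcases inv _ hcon with h3 | ⟨v, u, x, hv, -, -, ha, huv, -⟩
    · exact hG3.1 c d hc hd (Ne.symm hdc) h3
    · have hA := (h.far_anc ha huv).2.1
      rw [← hv] at hA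
      exact scz_not_aw hd hA
  · intro x hx
    rcases inv _ hx with h3 | ⟨v, u, y, rfl, -, -, ha, huv, -⟩
    · by_cases hiso : ∀ f w, ¬ SL n (per n (FB N r C n M F)) f x w
      · rw [← rc_isol h3 hiso]
        show |(0 : ℤ)| < M
        simp only [abs_zero]
        omega
      · push Not at hiso
        obtain ⟨f, w, hfw⟩ := hiso
        have hR := h.linkR ⟨0, h3⟩ hfw
        have h4 := abs_le.1 (h.rext hR)
        have h5 : x.2 = dco f ∨ x.2 = dco f + 1 := by
          rcases hfw.cor with h | h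
          · exact (cor_near h).1
          · exact (cor_near h).1
        rw [abs_lt]
        omega
    · have h4 := (h.far_anc ha huv).2.2
      omega

end Pool.Agent.W658.KZ
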