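import Pool.Agent.W658.KZ.Stm
import Pool.Agent.W808.KZ.T_EX

/-!
# KZR-XCH: the closed region is chained (helper956)
-/

set_option autoImplicit false

namespace Pool.Agent.W658.KZ
open H974 H906.Cyl
open Pool.Agent.H160R2.MU (Cel csq cpos prd shf BxS Bxs EP inSq PC Bad Cc)
open Pool.Agent.W801.OU
open Pool.Agent.W808.KZ

namespace TXCH

open Pool.Agent.W808.KZ.TEX

section
variable {N r : ℕ} {C : Cel} {n : ℕ}

/-- links of the closed region -/
abbrev RD (N r : ℕ) (C : Cel) (n : ℕ) : ℤ × ℤ → ℤ × ℤ → Prop :=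
  RZ (Zn n) {e | e ∉ EB N r ∧ e ∉ ET N r C} ∅

theorem fr_h (hr : 0 < r) (x y : ℤ) (h1 : Fr N r C (x - 1, y)) (h2 : Fr N r C (x, y)) :
    ((x, y, false) : Edg) ∉ EB N r ∧ ((x, y, false) : Edg) ∉ ET N r C :=
  ⟨nEP_h hr _ _ h1.1 h2.1, nEP_h hr _ _ h1.2 h2.2⟩

theorem fr_v (hr : 0 < r) (x y : ℤ) (h1 : Fr N r C (x, y - 1)) (h2 : Fr N r C (x, y)) :
    ((x, y, true) : Edg) ∉ EB N r ∧ ((x, y, true) : Edg) ∉ ET N r C :=
  ⟨nEP_v hr _ _ h1.1 h2.1, nEP_v hr _ _ h1.2 h2.2⟩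

/-- squares far from the diagonal are free -/
theorem fr_far (h3 : S_z3) (hN : 16 ≤ N) (hC : AdmZ N C) (p : ℤ × ℤ)
    (h : 3 * (N : ℤ) + 2 < p.1 / (r : ℤ) - p.2 / (r : ℤ) ∨
      p.1 / (r : ℤ) - p.2 / (r : ℤ) < -(3 * (N : ℤ) + 2)) : Fr N r C p := by
  have h4 := (h3 N C hN hC _ rfl).2.2.2.1
  constructor
  · intro hp
    have := abs_le.1 (h4 _ (Or.inl hp))
    simp only at this
    omega
  · intro hp
    have := abs_le.1 (h4 _ (Or.inr hp))
    simp only at this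
    omega

/-! ## below the ring -/

theorem lo_right (h3 : S_z3) (hN : 16 ≤ N) (hr : 0 < r) (hC : AdmZ N C) (p : ℤ × ℤ) (m : ℕ)
    (hp : 3 * (N : ℤ) + 2 < p.1 / (r : ℤ) - p.2 / (r : ℤ)) (hd : 0 ≤ p.1 - p.2) :
    RD N r C n (nf n p) (nf n (p.1 + m, p.2)) := by
  induction m with
  | zero =>
    have h0 : RD N r C n (nf n p) (nf n p) := Relation.EqvGen.refl _
    simpa using h0
  | succ m ih =>
    refine Relation.EqvGen.trans _ _ _ ih ?_
    have hr' : (0 : ℤ) < r := by exact_mod_cast hr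
    have e : p.1 + (m : ℤ) = p.1 + (m + 1 : ℕ) - 1 := by push_cast; ring
    have m1 : p.1 / (r : ℤ) ≤ (p.1 + (m : ℤ)) / (r : ℤ) :=
      Int.ediv_le_ediv hr' (by omega)
    have m2 : p.1 / (r : ℤ) ≤ (p.1 + (m + 1 : ℕ)) / (r : ℤ) :=
      Int.ediv_le_ediv hr' (by omega)
    have f1 : Fr N r C (p.1 + (m : ℤ), p.2) := fr_far h3 hN hC _ (Or.inl (by simp only; omega))
    have f2 : Fr N r C (p.1 + (m + 1 : ℕ), p.2) :=
      fr_far h3 hN hC _ (Or.inl (by simp only; omega))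
    have := lz_h (n := n) (B := {e | e ∉ EB N r ∧ e ∉ ET N r C}) (p.1 + (m + 1 : ℕ)) p.2
      (fr_h hr _ _ (by rw [← e]; exact f1) f2) ?_
    · rw [← e] at this
      exact Relation.EqvGen.rel _ _ this
    · rintro ⟨z1, -⟩
      have hd' : dco ((p.1 + (m + 1 : ℕ), p.2, false) : Edg) = p.1 + (m + 1 : ℕ) - p.2 - 1 := by
        simp [dco]
      rw [hd'] at z1
      push_cast at z1
      omega

theorem lo_down (h3 : S_z3) (hN : 16 ≤ N) (hr : 0 < r) (hC : AdmZ N C) (p : ℤ × ℤ) (m : ℕ)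
    (hp : 3 * (N : ℤ) + 2 < p.1 / (r : ℤ) - p.2 / (r : ℤ)) (hd : 0 ≤ p.1 - p.2) :
    RD N r C n (nf n p) (nf n (p.1, p.2 - m)) := by
  induction m with
  | zero =>
    have h0 : RD N r C n (nf n p) (nf n p) := Relation.EqvGen.refl _
    simpa using h0
  | succ m ih =>
    refine Relation.EqvGen.trans _ _ _ ih ?_
    have hr' : (0 : ℤ) < r := by exact_mod_cast hr
    have e : p.2 - ((m + 1 : ℕ) : ℤ) = p.2 - m - 1 := by push_cast; ring
    have m1 : (p.2 - (m : ℤ)) / (r : ℤ) ≤ p.2 / (r : ℤ) :=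
      Int.ediv_le_ediv hr' (by omega)
    have m2 : (p.2 - m - 1) / (r : ℤ) ≤ p.2 / (r : ℤ) :=
      Int.ediv_le_ediv hr' (by omega)
    have f1 : Fr N r C (p.1, p.2 - (m : ℤ)) := fr_far h3 hN hC _ (Or.inl (by simp only; omega))
    have f2 : Fr N r C (p.1, p.2 - m - 1) :=
      fr_far h3 hN hC _ (Or.inl (by simp only; omega))
    have := lz_v (n := n) (B := {e | e ∉ EB N r ∧ e ∉ ET N r C}) p.1 (p.2 - m)
      (fr_v hr _ _ f2 f1) ?_
    · rw [e]
      exact Relation.EqvGen.symm _ _ (Relation.EqvGen.rel _ _ this)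
    · rintro ⟨z1, -⟩
      have hd' : dco ((p.1, p.2 - (m : ℤ), true) : Edg) = p.1 - (p.2 - m) := by
        simp [dco]
      rw [hd'] at z1
      omega

theorem lo_per (h3 : S_z3) (hN : 16 ≤ N) (hr : 0 < r) (hC : AdmZ N C) (hn : n = prd N N * r)
    (p : ℤ × ℤ) (q : ℕ)
    (hp : 3 * (N : ℤ) + 2 < p.1 / (r : ℤ) - p.2 / (r : ℤ)) (hd : 0 ≤ p.1 - p.2) :
    RD N r C n (nf n p) (nf n (p.1 + q * n, p.2 + q * n)) := by
  have hr' : (0 : ℤ) < r := by exact_mod_cast hr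
  have h1 := lo_right (n := n) h3 hN hr hC p (q * n) hp hd
  have e1 := sh_div hr hn q p.1
  have e2 := sh_div hr hn q p.2
  have h2 := lo_down (n := n) h3 hN hr hC (p.1 + (q : ℤ) * n, p.2 + (q : ℤ) * n) (q * n)
    (by simp only; omega) (by simp only; omega)
  simp only at h2
  push_cast at h1 h2
  rw [show p.2 + (q : ℤ) * n - q * n = p.2 by ring] at h2
  exact Relation.EqvGen.trans _ _ _ h1 (Relation.EqvGen.symm _ _ h2)

/-! ## the far row -/

theorem odd_Zn (i : ℤ) : 2 * i + 1 ∉ Zn n := by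
  intro h
  obtain ⟨q, hq⟩ := mem_Zn.1 h
  omega

theorem nfF (i : ℤ) : nf n (i - n, i + n) = (2 * i + 1, -(2 * (n : ℤ))) := by
  rw [nf_off]
  · ext
    · simp only; ring
    · simp only; ring
  · left
    have := odd_Zn (n := n) i
    rw [show i - (n : ℤ) + (i + n) + 1 = 2 * i + 1 by ring]
    exact this

/-- faces near the far row are free -/
theorem fr_row (h3 : S_z3) (hN : 16 ≤ N) (hr : 0 < r) (hC : AdmZ N C) (hn : n = prd N N * r)
    (p : ℤ × ℤ) (h : p.1 - p.2 ≤ -(2 * (n : ℤ)) + 1) : Fr N r C p := by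
  have hr' : (0 : ℤ) < r := by exact_mod_cast hr
  have hN' : (16 : ℤ) ≤ N := by exact_mod_cast hN
  have hn' : (n : ℤ) = 20 * (r * N) := by
    rw [hn]; push_cast; rw [prdz]; ring
  obtain ⟨a1, a2⟩ := cb hr p.1
  obtain ⟨b1, b2⟩ := cb hr p.2
  refine fr_far h3 hN hC p (Or.inr ?_)
  apply mlt hr'
  have e1 : (r : ℤ) * (p.1 / (r : ℤ) - p.2 / (r : ℤ)) =
    r * (p.1 / (r : ℤ)) - r * (p.2 / (r : ℤ)) := by ring
  have e2 : (r : ℤ) * (-(3 * (N : ℤ) + 2)) = -(3 * (r * N)) - 2 * r := by ring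
  have h16 : (r : ℤ) * 16 ≤ r * N := mul_le_mul_of_nonneg_left hN' (by omega)
  omega

theorem XE_row (h3 : S_z3) (hN : 16 ≤ N) (hr : 0 < r) (hC : AdmZ N C) (hn : n = prd N N * r)
    (i : ℤ) : XE N r C n (2 * i + 1, -(2 * (n : ℤ))) := by
  rw [← nfF i]
  have hz : ((i - n, i + n, true) : Edg) ∉ zp (Zn n) := by
    rintro ⟨-, h⟩
    have h' : i - (n : ℤ) + (i + n) + 1 ∈ Zn n := h
    rw [show i - (n : ℤ) + (i + n) + 1 = 2 * i + 1 by ring] at h'
    exact odd_Zn i h'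
  obtain ⟨f1, f2⟩ := fr_v (N := N) (r := r) (C := C) hr (i - n) (i + n)
    (fr_row h3 hN hr hC hn _ (by simp only; omega))
    (fr_row h3 hN hr hC hn _ (by simp only; omega))
  refine ⟨(i - n, i + n, true), f1, f2, hz, nf n (i - n, i + n - 1), Or.inr ?_⟩
  obtain ⟨e, he, -, h | h⟩ := lz_v (n := n) (B := {((i - n, i + n, true) : Edg)}) (i - n) (i + n)
    rfl hz
  · exact absurd h.1 (fun h => h)
  · rw [Set.mem_singleton_iff] at he
    rw [← he]
    exact h.2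

theorem row_step (h3 : S_z3) (hN : 16 ≤ N) (hr : 0 < r) (hC : AdmZ N C) (hn : n = prd N N * r)
    (i : ℤ) (hz : 2 * i + 2 ∉ Zn n) :
    RD N r C n (2 * i + 1, -(2 * (n : ℤ))) (2 * i + 3, -(2 * (n : ℤ))) := by
  have hn0 : (0 : ℤ) ≤ n := by omega
  have e3 : nf n (i + 1 - n, i + 1 + n) = (2 * i + 3, -(2 * (n : ℤ))) := by
    rw [nfF (i + 1)]
    ext
    · simp only; ring
    · rfl
  rw [← nfF i, ← e3]
  have h1 := lz_v (n := n) (B := {e | e ∉ EB N r ∧ e ∉ ET N r C}) (i - n) (i + n + 1)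
    (fr_v hr _ _ (fr_row h3 hN hr hC hn _ (by simp only; omega))
      (fr_row h3 hN hr hC hn _ (by simp only; omega))) (by
      rintro ⟨-, h⟩
      apply hz
      have h' : i - (n : ℤ) + (i + n + 1) + 1 ∈ Zn n := h
      rw [show i - (n : ℤ) + (i + n + 1) + 1 = 2 * i + 2 by ring] at h'
      exact h')
  have h2 := lz_h (n := n) (B := {e | e ∉ EB N r ∧ e ∉ ET N r C}) (i + 1 - n) (i + n + 1)
    (fr_h hr _ _ (fr_row h3 hN hr hC hn _ (by simp only; omega))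
      (fr_row h3 hN hr hC hn _ (by simp only; omega))) (by
      rintro ⟨-, h⟩
      have h' : i + 1 - (n : ℤ) + (i + n + 1) + 1 ∈ Zn n := h
      rw [show i + 1 - (n : ℤ) + (i + n + 1) + 1 = 2 * (i + 1) + 1 by ring] at h'
      exact odd_Zn _ h')
  rw [show i + (n : ℤ) + 1 - 1 = i + n by ring] at h1
  rw [show i + 1 - (n : ℤ) - 1 = i - n by ring, show i + (n : ℤ) + 1 = i + 1 + n by ring] at h2
  rw [show i + (n : ℤ) + 1 = i + 1 + n by ring] at h1
  exact Relation.EqvGen.trans _ _ _ (Relation.EqvGen.rel _ _ h1) (Relation.EqvGen.rel _ _ h2)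

theorem row_side (hn0 : 0 < n) (i : ℤ) (hz : 2 * i + 2 ∈ Zn n) :
    Side (Zn n) (2 * i + 1, -(2 * (n : ℤ))) (2 * i + 3, -(2 * (n : ℤ))) := by
  have hd : dco ((i + 1 - n, i + 1 + n, true) : Edg) = -(2 * (n : ℤ)) := by
    simp [dco]; ring
  have hz' : ((i + 1 - n, i + 1 + n, true) : Edg) ∉ zp (Zn n) := by
    rintro ⟨-, h⟩
    have h' : i + 1 - (n : ℤ) + (i + 1 + n) + 1 ∈ Zn n := h
    rw [show i + 1 - (n : ℤ) + (i + 1 + n) + 1 = 2 * (i + 1) + 1 by ring] at h'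
    exact odd_Zn _ h'
  have h := Side.bot (Z := Zn n) ((i + 1 - n, i + 1 + n, true) : Edg) hz'
  rw [hd] at h
  simp only at h
  have e1 : nrm (Zn n) (-(2 * (n : ℤ))) (i + 1 - n + (i + 1 + n)) (-(2 * (n : ℤ))) =
      (2 * i + 1, -(2 * (n : ℤ))) := by
    rw [show i + 1 - (n : ℤ) + (i + 1 + n) = 2 * i + 2 by ring]
    unfold nrm
    rw [if_pos ⟨by omega, hz⟩]
    ext
    · simp only; ring
    · rfl
  have e2 : nrm (Zn n) (-(2 * (n : ℤ))) (i + 1 - n + (i + 1 + n) + 1) (-(2 * (n : ℤ))) =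
      (2 * i + 3, -(2 * (n : ℤ))) := by
    rw [show i + 1 - (n : ℤ) + (i + 1 + n) + 1 = 2 * (i + 1) + 1 by ring]
    unfold nrm
    rw [if_neg (fun h => odd_Zn _ h.2)]
    ext
    · simp only; ring
    · rfl
  rw [e1, e2] at h
  exact h

end

end TXCH

open TXCH Pool.Agent.W808.KZ.TEX in
theorem t_XCH : S_EX → S_z1 → S_z3 → S_XCH := by
  intro hEX _ h3 N r C hN hr hC n hn φ hφ1 hφ2
  have hr0 : 0 < r := by omega
  have hr' : (0 : ℤ) < r := by omega
  have hN' : (16 : ℤ) ≤ N := by exact_mod_cast hN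
  have h16 : (r : ℤ) * 16 ≤ r * N := mul_le_mul_of_nonneg_left hN' (by omega)
  have hnZ : (n : ℤ) = 20 * (r * N) := by
    rw [hn]; push_cast; rw [prdz]; ring
  have hn0 : 0 < n := by omega
  refine ⟨?_, ?_⟩
  · -- the far row
    have step : ∀ i : ℤ, φ (2 * i + 1, -(2 * (n : ℤ))) ↔ φ (2 * (i + 1) + 1, -(2 * (n : ℤ))) := by
      intro i
      rw [show 2 * (i + 1) + 1 = 2 * i + 3 by ring]
      by_cases hz : 2 * i + 2 ∈ Zn n
      · refine hφ2 _ _ (XE_row h3 hN hr0 hC hn i) ?_ (row_side hn0 i hz)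
        have := XE_row h3 hN hr0 hC hn (i + 1)
        rw [show 2 * (i + 1) + 1 = 2 * i + 3 by ring] at this
        exact this
      · exact hφ1 _ _ (row_step h3 hN hr0 hC hn i hz)
    have all : ∀ i : ℤ, φ (2 * i + 1, -(2 * (n : ℤ))) ↔ φ (2 * 0 + 1, -(2 * (n : ℤ))) := by
      intro i
      induction i using Int.induction_on with
      | zero => exact Iff.rfl
      | succ k ih => exact (step k).symm.trans ih
      | pred k ih =>
        have := step (-(k : ℤ) - 1)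
        rw [sub_add_cancel] at this
        exact this.trans ih
    have key : ∀ x : ℤ × ℤ, XE N r C n x → x.2 < (3 * N + 1) * r →
        (φ x ↔ φ (2 * 0 + 1, -(2 * (n : ℤ)))) := by
      intro x hx hxt
      obtain ⟨s, hs⟩ := (hEX N r C hN hr hC n (4 * n) hn rfl).1 x hx hxt
      refine (hφ1 _ _ hs).trans ?_
      have h := all (10 * (r * N) + n * s)
      rw [show 2 * (10 * (r * N : ℤ) + n * s) + 1 = n + 1 + 2 * n * s by rw [hnZ]; ring] at h
      exact h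
    intro x y hx hy hxt hyt
    exact (key x hx hxt).trans (key y hy hyt).symm
  · -- below the ring
    intro x q hx hxt
    obtain ⟨p, -, hxp, hp, -⟩ := xe1 hr0 hx
    have hx2 : x.2 = p.1 - p.2 := by rw [hxp, nf_snd]
    obtain ⟨a1, a2⟩ := cb hr0 p.1
    obtain ⟨b1, b2⟩ := cb hr0 p.2
    have eT : ((3 : ℤ) * N + 1) * r = r * (3 * N + 1) := by ring
    have eT2 : (r : ℤ) * (3 * N + 1) = 3 * (r * N) + r := by ring
    rw [eT] at hxt
    have hd : 0 ≤ p.1 - p.2 := by omega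
    have hlo : 3 * (N : ℤ) + 2 < p.1 / (r : ℤ) - p.2 / (r : ℤ) := by
      have g1 : 3 * (N : ℤ) + 1 < p.1 / (r : ℤ) - p.2 / (r : ℤ) + 1 := mlt hr' (by
        have e1 : (r : ℤ) * (p.1 / (r : ℤ) - p.2 / (r : ℤ) + 1) =
          r * (p.1 / (r : ℤ)) - r * (p.2 / (r : ℤ)) + r := by ring
        omega)
      by_contra hge
      exact hp.2 (Or.inl ⟨by show _ ≤ p.1 / (r : ℤ) - p.2 / (r : ℤ); omega,
        by show p.1 / (r : ℤ) - p.2 / (r : ℤ) ≤ _; omega⟩)
    have hx' : (x.1 + 2 * n * q, x.2) = nf n (p.1 + q * n, p.2 + q * n) := by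
      rw [hxp, nf_off (Or.inr hd), nf_off (Or.inr (by simp only; omega))]
      ext
      · simp only; ring
      · simp only; ring
    rw [hx', hxp]
    apply hφ1
    rcases le_total 0 q with hq | hq
    · have := lo_per h3 hN hr0 hC hn p q.toNat hlo hd
      rw [Int.toNat_of_nonneg hq] at this
      exact this
    · have e1 := sh_div hr0 hn q p.1
      have e2 := sh_div hr0 hn q p.2
      have := lo_per h3 hN hr0 hC hn (p.1 + q * n, p.2 + q * n) (-q).toNat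
        (by simp only; omega) (by simp only; omega)
      rw [Int.toNat_of_nonneg (by omega)] at this
      simp only at this
      rw [show p.1 + q * n + -q * n = p.1 by ring, show p.2 + q * n + -q * n = p.2 by ring] at this
      exact Relation.EqvGen.symm _ _ this

end Pool.Agent.W658.KZ
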