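import Pool.Agent.W658.KZ.Stm
import Pool.Agent.W808.KZ.Per
import Pool.Agent.W808.KZ.T_SEPB
import Pool.Agent.W239.KZR.EXB1
import Pool.Agent.W328.KZR.T_STR
import Pool.Agent.W956.KZR.TFRB

/-!
# KZR-MB1, step B, deterministic part (helper956): preparations
-/

set_option autoImplicit false

namespace Pool.Agent.W658.KZ
open H974 H906.Cyl
open H12S (Dir hbE segD rimE H4 Crs Nr sqE)
open Pool.Agent.H160R2.ML (nm)
open Pool.Agent.H160R2.MU (Cel csq cpos prd shf BxS Bxs EP inSq PC Bad Cc)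
open Pool.Agent.W808.HU (PTr)
open Pool.Agent.W801.OU
open Pool.Agent.W808.KZ
open Relation (EqvGen)

namespace MB

open Pool.Agent.W808.KZ.TSEPB (Aw Sz aw_Sz dg_std dg0 dg1 vp_even vp_inj link_vp dg_near mem_Sz
  src_dco Par Far eqv_isol mem_Zn)
open Pool.Agent.W808.KZ.TEXA (mem_mrg cor01 n_pos)
open Pool.Agent.W239.KZR (mem_FB mem_ExB1 KB1_tp KL_tv Yb_te1 Yb_te src_te tgt_te tv touch_B1)

/-! ## links without orientation -/

/-- symmetric links -/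
def SL (n : ℕ) (H : Set Edg) (e : Edg) (x y : ℤ × ℤ) : Prop :=
  e ∉ zp (Zn n) ∧ ((e ∈ H ∧ (Dg (Zn n) 0 e x y ∨ Dg (Zn n) 0 e y x)) ∨
    (e ∉ H ∧ (Dg (Zn n) 1 e x y ∨ Dg (Zn n) 1 e y x)))

theorem SL.sy {n : ℕ} {H : Set Edg} {e : Edg} {x y : ℤ × ℤ} (h : SL n H e x y) :
    SL n H e y x := ⟨h.1, h.2.imp (fun h => ⟨h.1, h.2.symm⟩) (fun h => ⟨h.1, h.2.symm⟩)⟩

theorem SL.rc {n : ℕ} {H : Set Edg} {e : Edg} {x y : ℤ × ℤ} (h : SL n H e x y) : RC n H x y := by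
  obtain ⟨hz, ⟨h1, h2 | h2⟩ | ⟨h1, h2 | h2⟩⟩ := h
  · exact EqvGen.rel _ _ ⟨e, trivial, hz, Or.inl ⟨h1, h2⟩⟩
  · exact EqvGen.symm _ _ (EqvGen.rel _ _ ⟨e, trivial, hz, Or.inl ⟨h1, h2⟩⟩)
  · exact EqvGen.rel _ _ ⟨e, trivial, hz, Or.inr ⟨h1, h2⟩⟩
  · exact EqvGen.symm _ _ (EqvGen.rel _ _ ⟨e, trivial, hz, Or.inr ⟨h1, h2⟩⟩)

theorem SL.cor {n : ℕ} {H : Set Edg} {e : Edg} {x y : ℤ × ℤ} (h : SL n H e x y) :
    Cor (Zn n) 0 e x ∨ Cor (Zn n) 1 e x := by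
  obtain ⟨hz, ⟨-, h2⟩ | ⟨-, h2⟩⟩ := h
  · exact Or.inl ⟨hz, y, h2⟩
  · exact Or.inr ⟨hz, y, h2⟩

/-- a property which is preserved by symmetric links -/
theorem rc_inv {n : ℕ} {H : Set Edg} {P : ℤ × ℤ → Prop}
    (h : ∀ e x y, SL n H e x y → P x → P y) {x y : ℤ × ℤ} (hxy : RC n H x y) (hx : P x) : P y := by
  refine (TSEPB.eqv_closed (Q := P) ?_ hxy).1 hx
  rintro a b ⟨e, -, hz, hab⟩
  have h1 : SL n H e a b := ⟨hz, hab.imp (fun h => ⟨h.1, Or.inl h.2⟩) (fun h => ⟨h.1, Or.inl h.2⟩)⟩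
  exact ⟨h e a b h1, h e b a h1.sy⟩

/-- a point with no link is alone -/
theorem rc_isol {n : ℕ} {H : Set Edg} {x y : ℤ × ℤ} (hxy : RC n H x y)
    (h : ∀ e z, ¬ SL n H e y z) : x = y := by
  refine eqv_isol (T := LZ (Zn n) Set.univ H) (fun z => ⟨?_, ?_⟩) hxy
  · rintro ⟨e, -, hz, hab⟩
    exact h e z ⟨hz, hab.imp (fun h => ⟨h.1, Or.inl h.2⟩) (fun h => ⟨h.1, Or.inl h.2⟩)⟩
  · rintro ⟨e, -, hz, hab⟩
    exact h e z ⟨hz, hab.imp (fun h => ⟨h.1, Or.inr h.2⟩) (fun h => ⟨h.1, Or.inr h.2⟩)⟩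

/-- links at a vertex away from the zippers -/
theorem SL.vert {n : ℕ} {H : Set Edg} {e : Edg} {v : Vtx} {y : ℤ × ℤ} (h : SL n H e (vp v) y)
    (hv : Aw n (vp v)) : e ∈ Sz n ∧ e ∈ H ∧ ∃ w : Vtx, y = vp w ∧
      ((src e = v ∧ tgt e = w) ∨ (src e = w ∧ tgt e = v)) := by
  obtain ⟨hz, h⟩ := h
  have h1 := link_vp (G := H) (y := y) hz hv
  rcases h with ⟨a, b | b⟩ | ⟨a, b | b⟩
  · obtain ⟨c1, c2, c3, c4⟩ := h1.1 (Or.inl ⟨a, b⟩)
    exact ⟨c1, c2, _, c4, Or.inl ⟨c3, rfl⟩⟩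
  · obtain ⟨c1, c2, c3, c4⟩ := h1.2 (Or.inl ⟨a, b⟩)
    exact ⟨c1, c2, _, c4, Or.inr ⟨rfl, c3⟩⟩
  · obtain ⟨c1, c2, c3, c4⟩ := h1.1 (Or.inr ⟨a, b⟩)
    exact ⟨c1, c2, _, c4, Or.inl ⟨c3, rfl⟩⟩
  · obtain ⟨c1, c2, c3, c4⟩ := h1.2 (Or.inr ⟨a, b⟩)
    exact ⟨c1, c2, _, c4, Or.inr ⟨rfl, c3⟩⟩

theorem Sz_zp {n : ℕ} {e : Edg} (h : e ∈ Sz n) : e ∉ zp (Zn n) := by
  rintro ⟨h4, h5⟩
  obtain ⟨s, hs⟩ := mem_Zn.1 h5
  rcases mem_Sz.1 h with h6 | h6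
  · omega
  · exact (h6 s).1 hs

/-- a corner of class `0` of a square away from the zippers -/
theorem cor0 {n : ℕ} {e : Edg} (he : e ∈ Sz n) {x : ℤ × ℤ} :
    Cor (Zn n) 0 e x ↔ x = vp (src e) ∨ x = vp (tgt e) := by
  constructor
  · rintro ⟨-, y, h | h⟩
    · exact Or.inl ((dg0 he).1 h).1
    · exact Or.inr ((dg0 he).1 h).2
  · rintro (rfl | rfl)
    · exact ⟨Sz_zp he, _, Or.inl ((dg0 he).2 ⟨rfl, rfl⟩)⟩
    · exact ⟨Sz_zp he, _, Or.inr ((dg0 he).2 ⟨rfl, rfl⟩)⟩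

/-- a point away from the zippers which is a corner of class `0` is a vertex -/
theorem cor0_aw {n : ℕ} {e : Edg} {x : ℤ × ℤ} (hx : Aw n x) (h : Cor (Zn n) 0 e x) :
    e ∈ Sz n ∧ (x = vp (src e) ∨ x = vp (tgt e)) := by
  have hS : e ∈ Sz n := by
    obtain ⟨hz, y, h⟩ := h
    exact aw_Sz hz h hx
  exact ⟨hS, (cor0 hS).1 h⟩

/-- a vertex away from the zippers is not a corner of class `1` -/
theorem not_cor1 {n : ℕ} {e : Edg} {v : Vtx} (hv : Aw n (vp v)) : ¬ Cor (Zn n) 1 e (vp v) := by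
  rintro ⟨hz, y, h⟩
  have hS := aw_Sz hz h hv
  have h5 := vp_even v
  rcases h with h | h
  · have := (dg1 hS h).1
    omega
  · have := (dg1 hS h).2
    omega

/-- the two classes of corners are adjacent -/
theorem side {n : ℕ} {e : Edg} {x y : ℤ × ℤ} (hx : Cor (Zn n) 0 e x) (hy : Cor (Zn n) 1 e y) :
    Side (Zn n) x y ∨ Side (Zn n) y x := by
  obtain ⟨hz, x', hx⟩ := hx
  obtain ⟨-, y', hy⟩ := hy
  have key : ∀ a b a' b' : ℤ × ℤ, Dg (Zn n) 0 e a b → Dg (Zn n) 1 e a' b' →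
      (Side (Zn n) a a' ∨ Side (Zn n) a' a) ∧ (Side (Zn n) a b' ∨ Side (Zn n) b' a) ∧
      (Side (Zn n) b a' ∨ Side (Zn n) a' b) ∧ (Side (Zn n) b b' ∨ Side (Zn n) b' b) := by
    intro a b a' b' h1 h2
    cases h1 with
    | rise p1 =>
      cases h2 with
      | rise p2 => omega
      | fall p2 =>
        exact ⟨Or.inl (Side.lft e hz), Or.inl (Side.bot e hz), Or.inr (Side.top e hz),
          Or.inr (Side.rgt e hz)⟩
    | fall p1 =>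
      cases h2 with
      | rise p2 =>
        exact ⟨Or.inr (Side.lft e hz), Or.inl (Side.top e hz), Or.inr (Side.bot e hz),
          Or.inl (Side.rgt e hz)⟩
      | fall p2 => omega
  rcases hx with hx | hx <;> rcases hy with hy | hy
  · exact (key _ _ _ _ hx hy).1
  · exact (key _ _ _ _ hx hy).2.1
  · exact (key _ _ _ _ hx hy).2.2.1
  · exact (key _ _ _ _ hx hy).2.2.2

/-- near corners -/
theorem cor_near {Z : Set ℤ} {c : ℤ} {e : Edg} {x : ℤ × ℤ} (h : Cor Z c e x) :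
    (x.2 = dco e ∨ x.2 = dco e + 1) ∧ e.1 + e.2.1 - 1 ≤ x.1 ∧ x.1 ≤ e.1 + e.2.1 + 1 := by
  obtain ⟨-, y, h | h⟩ := h
  · have := dg_near h
    exact ⟨this.1.1, this.2.1⟩
  · have := dg_near h
    exact ⟨this.1.2, this.2.2⟩

theorem ends_near (e : Edg) : ((vp (src e)).2 = dco e ∨ (vp (src e)).2 = dco e + 1) ∧
    ((vp (tgt e)).2 = dco e ∨ (vp (tgt e)).2 = dco e + 1) ∧
    (vp (src e)).1 = e.1 + e.2.1 ∧ (vp (tgt e)).1 = e.1 + e.2.1 + 1 := by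
  obtain ⟨x, y, b⟩ := e
  have h1 : (vp (src (x, y, b))).1 = x + y := rfl
  have h2 : (vp (src (x, y, b))).2 = x - y := rfl
  cases b
  · have h3 : (vp (tgt (x, y, false))).1 = x + (y + 1) := rfl
    have h4 : (vp (tgt (x, y, false))).2 = x - (y + 1) := rfl
    have h5 : dco (x, y, false) = x - y - 1 := by simp [dco]
    simp only
    omega
  · have h3 : (vp (tgt (x, y, true))).1 = x + 1 + y := rfl
    have h4 : (vp (tgt (x, y, true))).2 = x + 1 - y := rfl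
    have h5 : dco (x, y, true) = x - y := by simp [dco]
    simp only
    omega

theorem Far.mono {n : ℕ} {D D' : ℤ} {u v : ℤ × ℤ} (h : Far n D u) (h1 : |v.1 - u.1| + D' ≤ D)
    (h2 : |v.2 - u.2| + D' ≤ D) : Far n D' v := by
  rcases h with h | h
  · left
    have := abs_le.1 (le_refl |v.2 - u.2|)
    omega
  · right
    intro s
    have h3 := h s
    have h4 := abs_le.1 (le_refl |v.1 - u.1|)
    rw [le_abs] at h3 ⊢
    omega

theorem Far.aw' {n : ℕ} {D : ℤ} {u : ℤ × ℤ} (h : Far n D u) (h1 : 2 ≤ D) : Aw n u :=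
  TSEPB.Far.aw h (by simp; omega) (by simp; omega)

theorem scz_not_aw {n : ℕ} {s : ℤ} {c : ℕ} (hc : c < 3) : ¬ Aw n (scz n s c) := by
  rintro (h | h)
  · unfold scz at h
    simp only at h
    omega
  · have h1 := h s
    unfold scz at h1
    simp only at h1
    omega

end MB

end Pool.Agent.W658.KZ
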