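import Pool.Agent.W956.KZR.MB0

/-!
# KZR-MB1, step B, deterministic part (helper956): the clusters
-/

set_option autoImplicit false

namespace Pool.Agent.W658.KZ
open H974 H906.Cyl
open H12S (Dir hbE segD rimE H4 Crs Nr sqE)
open Pool.Agent.H160R2.ML (nm)
open Pool.Agent.H160R2.MU (Cel csq cpos prd shf BxS Bxs EP inSq PC Bad Cc)
open Pool.Agent.W808.HU (PTr)
open Pool.Agent.W801.OU
open Pool.Agent.W808.KZ
open Relation (EqvGen)

namespace MB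

open Pool.Agent.W808.KZ.TSEPB (Aw Sz aw_Sz dg_std dg0 dg1 vp_even vp_inj link_vp dg_near mem_Sz
  src_dco Par Far eqv_isol mem_Zn)
open Pool.Agent.W808.KZ.TEXA (mem_mrg cor01 n_pos)
open Pool.Agent.W239.KZR (mem_FB mem_ExB1 KB1_tp KL_tv Yb_te1 Yb_te src_te tgt_te tv touch_B1)

/-- the data of step B -/
structure Cx (c N r ρ l : ℕ) (C : Cel) (n M : ℕ) (F G : Finset Edg) : Prop where
  hc : c < 3
  hN : 16 ≤ N
  hC : AdmZ N C
  hl : 1 ≤ l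
  h1 : 32 * l ≤ ρ
  h2 : 64 * ρ ≤ r
  hn : n = prd N N * r
  hM : M = 4 * n
  hF : F ⊆ CE n M
  hXE : ∀ x : ℤ × ℤ, XE N r C n x → ¬ RC n (per n (FB N r C n M F)) (scz n 0 c) x
  hPT : PTr 0 n M l G
  z3 : S_z3
  coc : S_COC
  xch : S_XCH
  exb : ∀ (s : ℤ) (x : ℤ × ℤ),
    (RC n (per n (FB N r C n M (mrg (ExB1 c N r ρ C n M F) F ∅))) (scz n s c) x ↔
      RC n (per n (FB N r C n M F)) (scz n s c) x)
  str : ∀ e ∈ Yb N r ρ C n, ∀ s : ℤ, (ρ : ℤ) ≤ |e.1 + e.2.1 - 2 * n * s| ∨ (ρ : ℤ) ≤ dco e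
  frb : ∀ (s s' : ℤ) (x : ℤ × ℤ), RC n (per n (FB N r C n M F)) (scz n s c) x →
    (16 * ρ : ℤ) < |x.1 - 2 * n * s'| ∨ (16 * ρ : ℤ) < |x.2 + 2 * N * r|
  sep : ∀ (s : ℤ) (u v : Vtx), RC n (per n (FB N r C n M F)) (scz n s c) (vp u) →
    DvB N r C u → DvB N r C v → KL N r ρ C n F v → Nr (4 * l) u v →
    RC n (per n (FB N r C n M F)) (vp u) (vp v)

section
variable {c N r ρ l : ℕ} {C : Cel} {n M : ℕ} {F G : Finset Edg}

theorem Cx.par (h : Cx c N r ρ l C n M F G) : Par N r ρ l n C := by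
  obtain ⟨-, -, -, h4, h5⟩ := h.z3 N C h.hN h.hC _ rfl
  exact ⟨h.hN, h.hl, h.h1, h.h2, h.hn, h4, h5⟩

theorem Cx.num (h : Cx c N r ρ l C n M F G) : (1 : ℤ) ≤ l ∧ (32 : ℤ) * l ≤ ρ ∧ (64 : ℤ) * ρ ≤ r ∧
    (16 : ℤ) * r ≤ N * r ∧ (n : ℤ) = 20 * (N * r) ∧ (M : ℤ) = 4 * n := by
  obtain ⟨a, b, d⟩ := h.par.r64
  refine ⟨d, a, b, h.par.Nr, h.par.n20, ?_⟩
  have := h.hM
  omega

theorem Cx.n0 (h : Cx c N r ρ l C n M F G) : 0 < n := by
  have := h.num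
  omega

/-- squares of boxes and tube are in the band -/
theorem Cx.rext (h : Cx c N r ρ l C n M F G) {e : Edg} (he : e ∈ EB N r ∨ e ∈ ET N r C) :
    |dco e| ≤ 3 * (N * r) + 3 * r + 1 := by
  obtain ⟨z, -, -, -, h1⟩ := h.par.src_ext (e := e) he
  have h2 := src_dco e
  rw [abs_le] at h1 ⊢
  omega

theorem Cx.redCE (h : Cx c N r ρ l C n M F G) {e : Edg} (he : e ∈ EB N r ∨ e ∈ ET N r C) :
    red n e ∈ CE n M := by
  have h1 := abs_le.1 (h.rext he)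
  have h2 := h.num
  exact red_mem h.n0 (by omega) (by omega)

theorem Cx.redR (h : Cx c N r ρ l C n M F G) {e : Edg} :
    (red n e ∈ EB N r ∨ red n e ∈ ET N r C) ↔ (e ∈ EB N r ∨ e ∈ ET N r C) :=
  or_congr (Per.EB_red h.z3 h.hN h.hC h.hn e) (Per.ET_red h.z3 h.hN h.hC h.hn e)

theorem Cx.mem_G (h : Cx c N r ρ l C n M F G) {e : Edg} : e ∈ per n (FB N r C n M F) ↔
    (e ∈ EB N r ∨ e ∈ ET N r C) ∧ e ∈ per n F := by
  show red n e ∈ FB N r C n M F ↔ _ ∧ red n e ∈ F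
  rw [mem_FB, h.redR]
  exact ⟨fun h => h.2, fun h' => ⟨h.hF h'.2, h'⟩⟩

theorem Cx.mem_G1 (h : Cx c N r ρ l C n M F G) {e : Edg} :
    e ∈ per n (FB N r C n M (mrg (ExB1 c N r ρ C n M F) F ∅)) ↔
    (e ∈ EB N r ∨ e ∈ ET N r C) ∧ e ∈ per n F ∧ e ∈ per n (ExB1 c N r ρ C n M F) := by
  show red n e ∈ FB N r C n M (mrg (ExB1 c N r ρ C n M F) F ∅) ↔
    _ ∧ red n e ∈ F ∧ red n e ∈ ExB1 c N r ρ C n M F
  rw [mem_FB, h.redR, mem_mrg]
  constructor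
  · rintro ⟨h1, h2, h3 | h3⟩
    · exact ⟨h2, h3⟩
    · exact absurd h3.1 (Finset.notMem_empty _)
  · rintro ⟨h1, h2, h3⟩
    exact ⟨h.hF h2, h1, Or.inl ⟨h2, h3⟩⟩

theorem mem_Gp {X : Finset Edg} {e : Edg} : e ∈ per n (mrg X F G) ↔
    (e ∈ per n F ∧ e ∈ per n X) ∨ (e ∈ per n G ∧ e ∉ per n X) := mem_mrg

/-! ## explored squares -/

theorem Cx.x1 (h : Cx c N r ρ l C n M F G) {e : Edg} (he : e ∈ EB N r ∨ e ∈ ET N r C) {z : ℤ × ℤ}
    (hz : KB1 c N r C n M F z) (hc : Cor (Zn n) 0 e z ∨ Cor (Zn n) 1 e z) :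
    e ∈ per n (ExB1 c N r ρ C n M F) :=
  touch_B1 h.z3 ρ h.hN h.hC h.hn h.n0 (h.redCE he) (h.redR.2 he) hz hc

theorem Cx.x2 (h : Cx c N r ρ l C n M F G) {e : Edg} (he : e ∈ per n (ExB1 c N r ρ C n M F)) :
    (∃ z, KB1 c N r C n M F z ∧ (Cor (Zn n) 0 e z ∨ Cor (Zn n) 1 e z)) ∨
      KL N r ρ C n F (src e) ∨ KL N r ρ C n F (tgt e) := by
  have he' : red n e ∈ ExB1 c N r ρ C n M F := he
  rw [mem_ExB1] at he'
  obtain ⟨q, hq⟩ : ∃ q : ℤ, e = Per.te n q (red n e) := by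
    refine ⟨(e.1 + e.2.1) / (2 * n), ?_⟩
    rw [Per.red_eq_te, Per.te_te, add_neg_cancel, Per.te_zero]
  obtain ⟨-, -, ⟨x, hx, hcx⟩ | ⟨-, hK⟩⟩ := he'
  · left
    refine ⟨Per.tp n q x, KB1_tp h.n0 F q hx, ?_⟩
    rw [hq]
    exact hcx.imp (Per.Cor_te1 q) (Per.Cor_te1 q)
  · right
    rw [hq, src_te, tgt_te]
    exact hK.imp (KL_tv h.z3 h.hN h.hC h.hn h.n0 F q) (KL_tv h.z3 h.hN h.hC h.hn h.n0 F q)

theorem Cx.x3 (h : Cx c N r ρ l C n M F G) {e : Edg} (hY : e ∈ Yb N r ρ C n)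
    (hK : KL N r ρ C n F (src e) ∨ KL N r ρ C n F (tgt e)) :
    e ∈ per n (ExB1 c N r ρ C n M F) := by
  show red n e ∈ ExB1 c N r ρ C n M F
  rw [mem_ExB1]
  refine ⟨h.redCE hY.1, h.redR.2 hY.1, Or.inr ⟨?_, ?_⟩⟩
  · rw [Per.red_eq_te]
    exact Yb_te1 h.z3 h.hN h.hC h.hn _ hY
  · rw [Per.red_eq_te, src_te, tgt_te]
    exact hK.imp (KL_tv h.z3 h.hN h.hC h.hn h.n0 F _) (KL_tv h.z3 h.hN h.hC h.hn h.n0 F _)

theorem Cx.x4 (h : Cx c N r ρ l C n M F G) {e : Edg} (he : e ∈ per n (ExB1 c N r ρ C n M F)) :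
    e ∈ EB N r ∨ e ∈ ET N r C := by
  have he' : red n e ∈ ExB1 c N r ρ C n M F := he
  rw [mem_ExB1] at he'
  exact h.redR.1 he'.2.1

/-! ## the clusters of the sectors -/

theorem Cx.kxe (h : Cx c N r ρ l C n M F G) {z : ℤ × ℤ} (hz : KB1 c N r C n M F z) :
    ¬ XE N r C n z := by
  obtain ⟨s, hs⟩ := hz
  intro hX
  have h1 := Per.RC_tp h.n0 (FB N r C n M F) (-s) hs
  rw [Per.tp_scz, add_neg_cancel] at h1
  exact h.hXE _ (Per.XE_tp h.z3 h.hN h.hC h.hn (-s) hX) h1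

theorem k_rc {z w : ℤ × ℤ} (hz : KB1 c N r C n M F z) (h : RC n (per n (FB N r C n M F)) z w) :
    KB1 c N r C n M F w := by
  obtain ⟨s, hs⟩ := hz
  exact ⟨s, EqvGen.trans _ _ _ hs h⟩

theorem Cx.k_rc1 (h : Cx c N r ρ l C n M F G) {z w : ℤ × ℤ} (hz : KB1 c N r C n M F z)
    (hzw : RC n (per n (FB N r C n M (mrg (ExB1 c N r ρ C n M F) F ∅))) z w) :
    KB1 c N r C n M F w := by
  obtain ⟨s, hs⟩ := hz
  exact ⟨s, (h.exb s w).1 (EqvGen.trans _ _ _ ((h.exb s z).2 hs) hzw)⟩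

/-- a square of the closed region near a point of a cluster: the point is a corner of a square of the
strip -/
theorem Cx.near (h : Cx c N r ρ l C n M F G) {z : ℤ × ℤ} (hz : KB1 c N r C n M F z) {e : Edg}
    (he : e ∉ EB N r) (he' : e ∉ ET N r C) (h1 : |e.1 + e.2.1 - z.1| ≤ 2) (h2 : |dco e - z.2| ≤ 2) :
    ∃ f ∈ Yb N r ρ C n, Cor (Zn n) 0 f z ∨ Cor (Zn n) 1 f z := by
  obtain ⟨n1, n2, n3, n4, n5, n6⟩ := h.num
  have hr1 : 1 ≤ r := by omega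
  obtain ⟨s, hs⟩ := hz
  have hd : dco e = e.1 - e.2.1 ∨ dco e = e.1 - e.2.1 - 1 := by
    obtain ⟨x, y, b⟩ := e
    cases b <;> simp [dco]
  rw [abs_le] at h1 h2
  by_cases hiso : ∀ f w, ¬ SL n (per n (FB N r C n M F)) f z w
  · exfalso
    have hzs := rc_isol hs hiso
    have hc := h.hc
    apply he
    have e1 : (20 * (N * r : ℤ)) * s = n * s := by rw [n5]
    have e2 : z.1 = 2 * (n * s) + c - 1 := by
      rw [← hzs]
      show 2 * (n : ℤ) * s + c - 1 = _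
      ring
    have e3 : z.2 = 0 := by rw [← hzs]; rfl
    obtain ⟨T, hT⟩ : ∃ T : ℤ, T = n * s := ⟨_, rfl⟩
    rw [← hT] at e1 e2
    apply TSTR.box_mem hr1 (s := s)
    · rw [e1]; omega
    · rw [e1]; omega
    · rw [e1]; omega
    · rw [e1]; omega
  · push Not at hiso
    obtain ⟨f, w, hfw⟩ := hiso
    have hfR : f ∈ EB N r ∨ f ∈ ET N r C := by
      by_contra hcon
      push Not at hcon
      have hfG : f ∉ per n (FB N r C n M F) := by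
        rw [h.mem_G]
        rintro ⟨h1 | h1, -⟩
        · exact hcon.1 h1
        · exact hcon.2 h1
      obtain ⟨hzf, ⟨a, -⟩ | ⟨-, b⟩⟩ := hfw
      · exact hfG a
      · exact h.kxe ⟨s, hs⟩ ⟨f, hcon.1, hcon.2, hzf, w, b⟩
    have hcor := hfw.cor
    have hnear : (z.2 = dco f ∨ z.2 = dco f + 1) ∧ f.1 + f.2.1 - 1 ≤ z.1 ∧
        z.1 ≤ f.1 + f.2.1 + 1 := by
      rcases hcor with h | h
      · exact cor_near h
      · exact cor_near h
    have hdf : dco f = f.1 - f.2.1 ∨ dco f = f.1 - f.2.1 - 1 := by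
      obtain ⟨x, y, b⟩ := f
      cases b <;> simp [dco]
    refine ⟨f, ⟨hfR, ⟨e, he, he', ?_, ?_⟩, ?_⟩, hcor⟩
    · rw [abs_le]; omega
    · rw [abs_le]; omega
    · rintro ⟨s', hs1, hs2⟩
      have h3 := h.frb s s' z hs
      have e1 : (2 : ℤ) * n * s' = 2 * (n * s') := by ring
      have e2 : (2 : ℤ) * N * r = 2 * (N * r) := by ring
      rw [e1, e2] at h3
      obtain ⟨T, hT⟩ : ∃ T : ℤ, T = n * s' := ⟨_, rfl⟩
      rw [← hT] at h3 hs1 hs2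
      rw [abs_le] at hs1 hs2
      rw [lt_abs, lt_abs] at h3
      omega

/-- corners of the squares of the strip are far from the zippers -/
theorem Cx.far_Y (h : Cx c N r ρ l C n M F G) {f : Edg} (hf : f ∈ Yb N r ρ C n) {z : ℤ × ℤ}
    (h1 : |f.1 + f.2.1 - z.1| ≤ 1) (h2 : |dco f - z.2| ≤ 1) : Far n (ρ - 1) z := by
  by_contra hcon
  unfold Far at hcon
  push Not at hcon
  obtain ⟨h3, s, h4⟩ := hcon
  have h5 := h.str f hf s
  rw [abs_lt] at h4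
  rw [abs_le] at h1 h2
  rw [le_abs] at h5
  omega

theorem Cx.far_cor (h : Cx c N r ρ l C n M F G) {f : Edg} (hf : f ∈ Yb N r ρ C n) {z : ℤ × ℤ}
    (hc : Cor (Zn n) 0 f z ∨ Cor (Zn n) 1 f z) : Far n (ρ - 1) z := by
  have h1 : (z.2 = dco f ∨ z.2 = dco f + 1) ∧ f.1 + f.2.1 - 1 ≤ z.1 ∧ z.1 ≤ f.1 + f.2.1 + 1 := by
    rcases hc with h | h
    · exact cor_near h
    · exact cor_near h
  exact h.far_Y hf (by rw [abs_le]; omega) (by rw [abs_le]; omega)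

theorem Cx.far_end (h : Cx c N r ρ l C n M F G) {f : Edg} (hf : f ∈ Yb N r ρ C n) {v : Vtx}
    (hv : src f = v ∨ tgt f = v) : Far n (ρ - 1) (vp v) := by
  have h1 := ends_near f
  rcases hv with rfl | rfl
  · exact h.far_Y hf (by rw [abs_le]; omega) (by rw [abs_le]; omega)
  · exact h.far_Y hf (by rw [abs_le]; omega) (by rw [abs_le]; omega)

/-- vertices of the clusters in the closed region are far from the zippers -/
theorem Cx.far_D (h : Cx c N r ρ l C n M F G) {v : Vtx} (hv : KB1 c N r C n M F (vp v))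
    (hD : DvB N r C v) : Far n (ρ - 1) (vp v) ∧ |(vp v).2| ≤ 3 * (N * r) + 3 * r + 2 := by
  obtain ⟨e, h1, h2, h3⟩ := hD
  have h4 := ends_near e
  obtain ⟨f, hf, hc⟩ : ∃ f ∈ Yb N r ρ C n, Cor (Zn n) 0 f (vp v) ∨ Cor (Zn n) 1 f (vp v) := by
    rcases h3 with rfl | rfl
    · exact h.near hv h1 h2 (by rw [abs_le]; omega) (by rw [abs_le]; omega)
    · exact h.near hv h1 h2 (by rw [abs_le]; omega) (by rw [abs_le]; omega)
  refine ⟨h.far_cor hf hc, ?_⟩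
  have h5 := abs_le.1 (h.rext hf.1)
  have h6 : ((vp v).2 = dco f ∨ (vp v).2 = dco f + 1) := by
    rcases hc with h | h
    · exact (cor_near h).1
    · exact (cor_near h).1
  rw [abs_le]
  omega

/-! ## local clusters -/

theorem reach_symm {A : Set Edg} {u v : Vtx} (h : Reach A u v) : Reach A v u := by
  induction h with
  | refl => exact Relation.ReflTransGen.refl
  | tail _ hs ih =>
    refine Relation.ReflTransGen.head ?_ ih
    obtain ⟨e, he, h⟩ := hs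
    exact ⟨e, he, h.symm⟩

theorem kl_reach {v w : Vtx} (h : KL N r ρ C n F v) (hvw : Reach (per n F ∩ Yb N r ρ C n) v w) :
    KL N r ρ C n F w := by
  obtain ⟨a, e, h1, h2, h3, h4⟩ := h
  exact ⟨a, e, h1, h2, h3, h4.trans hvw⟩

/-- the cluster of a vertex of the strip which is not connected to the rest -/
theorem Cx.loc (h : Cx c N r ρ l C n M F G) {H : Set Edg}
    (hH : ∀ e ∈ H, (e ∈ EB N r ∨ e ∈ ET N r C) ∧ e ∈ per n F) {v : Vtx} (hv : Aw n (vp v))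
    (hK : ¬ KL N r ρ C n F v) {z : ℤ × ℤ} (hz : RC n H (vp v) z) :
    ∃ w : Vtx, z = vp w ∧ Reach (per n F ∩ Yb N r ρ C n) v w ∧ Aw n (vp w) := by
  obtain ⟨n1, n2, n3, n4, n5, n6⟩ := h.num
  refine rc_inv (P := fun z => ∃ w : Vtx, z = vp w ∧ Reach (per n F ∩ Yb N r ρ C n) v w ∧
    Aw n (vp w)) ?_ hz ⟨v, rfl, Relation.ReflTransGen.refl, hv⟩
  rintro e x y hxy ⟨w, rfl, hw, hAw⟩
  obtain ⟨hS, heH, w', rfl, hww⟩ := hxy.vert hAw
  obtain ⟨hR, heF⟩ := hH e heH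
  have heY : e ∈ Yb N r ρ C n := by
    by_contra hY
    exact hK ⟨w, e, hR, hY, hww.imp (fun h => h.1) (fun h => h.2), reach_symm hw⟩
  refine ⟨w', rfl, hw.tail ⟨e, ⟨heF, heY⟩, hww⟩, ?_⟩
  exact Far.aw' (h.far_end heY (hww.symm.imp (fun h => h.1) (fun h => h.2))) (by omega)

/-- a vertex of the clusters in the closed region is marked in the strip -/
theorem Cx.klk (h : Cx c N r ρ l C n M F G) {v : Vtx} (hv : KB1 c N r C n M F (vp v))
    (hD : DvB N r C v) : KL N r ρ C n F v := by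
  obtain ⟨n1, n2, n3, n4, n5, n6⟩ := h.num
  by_contra hK
  have hA : Aw n (vp v) := Far.aw' (h.far_D hv hD).1 (by omega)
  obtain ⟨s, hs⟩ := hv
  obtain ⟨w, hw, -, hAw⟩ := h.loc (H := per n (FB N r C n M F)) (fun e he => h.mem_G.1 he) hA hK
    (EqvGen.symm _ _ hs)
  rw [← hw] at hAw
  exact scz_not_aw h.hc hAw

end

end MB

end Pool.Agent.W658.KZ
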